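import Pool.Agent.H948.HS.Defs

/-!
# Simple facts
-/

set_option autoImplicit false

namespace Pool.Agent.H948.HS

open MeasureTheory ProbabilityTheory Set Filter Metric
open scoped ENNReal NNReal Topology RealInnerProductSpace

variable {m : ℕ}

instance instNontrivialE : Nontrivial (E m) := by
  refine ⟨⟨EuclideanSpace.single 0 1, 0, fun h => ?_⟩⟩
  have := congrArg (fun x : E m => x 0) h
  simp at this

instance instProbSig : IsProbabilityMeasure (sig m) := by
  constructor
  have h0 : (volume : Measure (E m)).toSphere univ ≠ 0 := by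
    rw [Ne, Measure.measure_univ_eq_zero]
    exact Measure.toSphere_ne_zero _
  have h1 : (volume : Measure (E m)).toSphere univ ≠ ⊤ := measure_ne_top _ _
  simp only [sig, Measure.smul_apply, smul_eq_mul]
  exact ENNReal.inv_mul_cancel h0 h1

instance instProbPm : IsProbabilityMeasure (Pm m) := by
  unfold Pm; infer_instance

theorem norm_sp (x : Sp m) : ‖(x : E m)‖ = 1 := by
  have := x.2
  simpa using this

/-! ## Sums of steps -/

theorem S_congr {u v : Om m} {n i j : ℕ} (h : ∀ k < n, u k = v k) (hj : j ≤ n) :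
    S u i j = S v i j := by
  unfold S
  refine Finset.sum_congr rfl fun k hk => ?_
  rw [h k (lt_of_lt_of_le (Finset.mem_Ico.1 hk).2 hj)]

theorem ht_congr {u v : Om m} {n i j : ℕ} (h : ∀ k < n, u k = v k) (hj : j ≤ n) :
    ht u i j = ht v i j := by
  unfold ht; rw [S_congr h hj]

theorem S_self (u : Om m) (i : ℕ) : S u i i = 0 := by simp [S]

theorem ht_self (u : Om m) (i : ℕ) : ht u i i = 0 := by simp [ht, S_self]

theorem S_succ (u : Om m) {i j : ℕ} (h : i ≤ j) : S u i (j + 1) = S u i j + (u j : E m) := by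
  unfold S; exact Finset.sum_Ico_succ_top h _

theorem S_add (u : Om m) {i j k : ℕ} (h1 : i ≤ j) (h2 : j ≤ k) :
    S u i j + S u j k = S u i k := by
  unfold S; exact Finset.sum_Ico_consecutive _ h1 h2

theorem ht_add (u : Om m) {i j k : ℕ} (h1 : i ≤ j) (h2 : j ≤ k) :
    ht u i j + ht u j k = ht u i k := by
  unfold ht; rw [← S_add u h1 h2]; simp

theorem S_shift (u : Om m) (a i j : ℕ) : S (shift a u) i j = S u (a + i) (a + j) := by
  unfold S shift
  rw [add_comm a i, add_comm a j, ← Finset.sum_Ico_add' (fun k => ((u k : Sp m) : E m)) i j a]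
  simp only [add_comm a]

theorem ht_shift (u : Om m) (a i j : ℕ) : ht (shift a u) i j = ht u (a + i) (a + j) := by
  unfold ht; rw [S_shift]

theorem shift_shift (u : Om m) (a b : ℕ) : shift b (shift a u) = shift (a + b) u := by
  funext i; simp [shift, add_assoc]

theorem shift_zero (u : Om m) : shift 0 u = u := by
  funext i; simp [shift]

theorem norm_S_le (u : Om m) (i j : ℕ) : ‖S u i j‖ ≤ ((j - i : ℕ) : ℝ) := by
  unfold S
  refine (norm_sum_le _ _).trans ?_
  simp [norm_sp]

theorem norm_e0 : ‖e0 m‖ = 1 := by simp [e0]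

theorem ht_eq_inner (u : Om m) (i j : ℕ) : ht u i j = ⟪e0 m, S u i j⟫ := by
  simp [ht, e0, EuclideanSpace.inner_single_left]

theorem abs_coord_le (x : E m) (r : Fin (m + 1)) : |x r| ≤ ‖x‖ := by
  have := EuclideanSpace.norm_eq x
  have h : |x r| ^ 2 ≤ ‖x‖ ^ 2 := by
    rw [EuclideanSpace.norm_sq_eq]
    have := Finset.single_le_sum (f := fun i => ‖x i‖ ^ 2) (fun i _ => by positivity)
      (Finset.mem_univ r)
    simpa using this
  exact (abs_le_of_sq_le_sq h (norm_nonneg _)).trans' (le_abs_self _) |>.trans' (by simp)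

theorem abs_ht_le (u : Om m) (i j : ℕ) : |ht u i j| ≤ ((j - i : ℕ) : ℝ) :=
  (abs_coord_le _ _).trans (norm_S_le u i j)

theorem ht_le_norm (u : Om m) (i j : ℕ) : ht u i j ≤ ‖S u i j‖ :=
  (le_abs_self _).trans (abs_coord_le _ _)

/-! ## Measurability -/

theorem measurable_S (i j : ℕ) : Measurable fun u : Om m => S u i j := by
  unfold S
  exact Finset.measurable_sum _ fun k _ => measurable_subtype_coe.comp (measurable_pi_apply k)

theorem measurable_coord (r : Fin (m + 1)) : Measurable fun x : E m => x r :=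
  (EuclideanSpace.proj (𝕜 := ℝ) r : E m →L[ℝ] ℝ).continuous.measurable

theorem measurable_ht (i j : ℕ) : Measurable fun u : Om m => ht u i j :=
  (measurable_coord 0).comp (measurable_S i j)

theorem measurable_inner_S (f : E m) (i j : ℕ) : Measurable fun u : Om m => ⟪f, S u i j⟫ :=
  (continuous_const.inner continuous_id).measurable.comp (measurable_S i j)

theorem measurable_shift (a : ℕ) : Measurable (shift a : Om m → Om m) :=
  measurable_pi_iff.2 fun i => measurable_pi_apply (a + i)

theorem meas_all {ι : Sort*} [Countable ι] {p : ι → Om m → Prop}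
    (h : ∀ i, MeasurableSet {u | p i u}) : MeasurableSet {u | ∀ i, p i u} := by
  have e : {u | ∀ i, p i u} = ⋂ i, {u | p i u} := by ext u; simp
  rw [e]
  exact MeasurableSet.iInter h

theorem meas_Saw (c : ℝ) (n : ℕ) : MeasurableSet (Saw m c n) := by
  unfold Saw
  refine meas_all fun i => meas_all fun j => meas_all fun _ => meas_all fun _ => ?_
  exact measurableSet_lt measurable_const (measurable_S i j).norm

theorem meas_Brd (c : ℝ) (n : ℕ) : MeasurableSet (Brd m c n) := by
  unfold Brd
  refine (meas_Saw c n).inter (MeasurableSet.inter ?_ ?_)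
  · refine meas_all fun j => meas_all fun _ => meas_all fun _ => ?_
    exact measurableSet_lt measurable_const (measurable_ht 0 j)
  · refine meas_all fun j => meas_all fun _ => ?_
    exact measurableSet_lt (measurable_ht 0 j) (measurable_ht 0 n)

theorem meas_Wb (c : ℝ) (f : E m) (n : ℕ) : MeasurableSet (Wb m c f n) := by
  unfold Wb
  refine (meas_Saw c n).inter ?_
  refine meas_all fun j => meas_all fun _ => MeasurableSet.inter ?_ ?_
  · exact measurableSet_le measurable_const (measurable_inner_S f 0 j)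
  · exact measurableSet_le (measurable_inner_S f 0 j) (measurable_inner_S f 0 n)

theorem meas_Far (c a : ℝ) (n : ℕ) : MeasurableSet (Far m c a n) := by
  unfold Far
  exact (meas_Saw c n).inter (measurableSet_le measurable_const (measurable_S 0 n).norm)

theorem meas_High (c a : ℝ) (n : ℕ) : MeasurableSet (High m c a n) := by
  unfold High
  exact (meas_Saw c n).inter (measurableSet_le measurable_const (measurable_ht 0 n))

theorem meas_Nice (c v C ζ : ℝ) (n : ℕ) : MeasurableSet (Nice m c v C ζ n) := by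
  unfold Nice
  refine (meas_Saw c n).inter (MeasurableSet.inter ?_ (MeasurableSet.inter ?_ ?_))
  · refine meas_all fun j => meas_all fun _ => MeasurableSet.inter ?_ ?_
    · exact measurableSet_le measurable_const (measurable_ht 0 j)
    · exact measurableSet_le (measurable_ht 0 j) (measurable_ht 0 n)
  · refine meas_all fun j => meas_all fun _ => MeasurableSet.inter ?_ ?_
    · exact measurableSet_le ((measurable_S 0 j).sub measurable_const).norm measurable_const
    · exact measurableSet_le ((measurable_S j n).sub measurable_const).norm measurable_const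
  · exact measurableSet_le ((measurable_S 0 n).sub measurable_const).norm measurable_const

theorem meas_Gs (c : ℝ) (a : ℕ) (s : ℝ) (n : ℕ) : MeasurableSet (Gs m c a s n) := by
  unfold Gs
  refine (meas_Saw c n).inter ?_
  refine meas_all fun r => meas_all fun _ => meas_all fun i =>
    meas_all fun j => meas_all fun _ => meas_all fun _ => ?_
  exact measurableSet_lt ((measurable_coord r).comp (measurable_S i j)).abs measurable_const

theorem meas_bad (v ζ : ℝ) (l i : ℕ) : MeasurableSet {u : Om m | bad v ζ l u i} := by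
  unfold bad
  exact measurableSet_lt measurable_const ((measurable_S _ _).sub measurable_const).norm

/-! ## Locality -/

theorem loc_Saw (c : ℝ) (n : ℕ) : Loc n (Saw m c n) := by
  intro u v h
  have key : ∀ i j, j ≤ n → S u i j = S v i j := fun i j hj => S_congr h hj
  constructor
  · intro hu i j hij hj; rw [← key i j hj]; exact hu i j hij hj
  · intro hu i j hij hj; rw [key i j hj]; exact hu i j hij hj

theorem loc_and {n : ℕ} {A : Set (Om m)} {p : Om m → Prop} (hA : Loc n A)
    (hp : ∀ u v : Om m, (∀ i < n, u i = v i) → p u → p v) : Loc n {u | u ∈ A ∧ p u} := by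
  intro u v h
  exact ⟨fun hu => ⟨(hA u v h).1 hu.1, hp u v h hu.2⟩,
    fun hv => ⟨(hA u v h).2 hv.1, hp v u (fun i hi => (h i hi).symm) hv.2⟩⟩

theorem loc_Brd (c : ℝ) (n : ℕ) : Loc n (Brd m c n) := by
  refine loc_and (loc_Saw c n) ?_
  rintro u v h ⟨h1, h2⟩
  refine ⟨fun j h0 hj => ?_, fun j hj => ?_⟩
  · rw [← ht_congr h hj]; exact h1 j h0 hj
  · rw [← ht_congr h hj.le, ← ht_congr h le_rfl]; exact h2 j hj

theorem loc_Wb (c : ℝ) (f : E m) (n : ℕ) : Loc n (Wb m c f n) := by
  refine loc_and (loc_Saw c n) ?_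
  intro u v h h1 j hj
  rw [← S_congr h hj, ← S_congr (i := 0) h le_rfl]; exact h1 j hj

theorem loc_Far (c a : ℝ) (n : ℕ) : Loc n (Far m c a n) := by
  refine loc_and (loc_Saw c n) ?_
  intro u v h h1
  rw [← S_congr h le_rfl]; exact h1

theorem loc_High (c a : ℝ) (n : ℕ) : Loc n (High m c a n) := by
  refine loc_and (loc_Saw c n) ?_
  intro u v h h1
  rw [← ht_congr h le_rfl]; exact h1

theorem loc_Nice (c v C ζ : ℝ) (n : ℕ) : Loc n (Nice m c v C ζ n) := by
  refine loc_and (loc_Saw c n) ?_
  rintro u w h ⟨h1, h2, h3⟩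
  refine ⟨fun j hj => ?_, fun j hj => ?_, ?_⟩
  · rw [← ht_congr h hj, ← ht_congr h le_rfl]; exact h1 j hj
  · rw [← S_congr h hj, ← S_congr h le_rfl]; exact h2 j hj
  · rw [← S_congr h le_rfl]; exact h3

theorem loc_Gs (c : ℝ) (a : ℕ) (s : ℝ) (n : ℕ) : Loc n (Gs m c a s n) := by
  refine loc_and (loc_Saw c n) ?_
  intro u v h h1 r hr i j hij hj
  rw [← S_congr h hj]; exact h1 r hr i j hij hj

/-! ## Pieces of self-avoiding walks -/

theorem saw_shift {c : ℝ} {u : Om m} {n i k : ℕ} (h : u ∈ Saw m c n) (hik : i + k ≤ n) :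
    shift i u ∈ Saw m c k := by
  intro a b hab hb
  rw [S_shift]
  exact h _ _ (by omega) (by omega)

theorem saw_mono {c : ℝ} {u : Om m} {n k : ℕ} (h : u ∈ Saw m c n) (hk : k ≤ n) :
    u ∈ Saw m c k := fun a b hab hb => h a b hab (hb.trans hk)

theorem gs_shift {c s : ℝ} {a : ℕ} {u : Om m} {n i k : ℕ} (h : u ∈ Gs m c a s n)
    (hik : i + k ≤ n) : shift i u ∈ Gs m c a s k := by
  refine ⟨saw_shift h.1 hik, fun r hr p q hpq hq => ?_⟩
  rw [S_shift]
  exact h.2 r hr _ _ (by omega) (by omega)

theorem gs_mono {c s : ℝ} {a : ℕ} {u : Om m} {n k : ℕ} (h : u ∈ Gs m c a s n) (hk : k ≤ n) :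
    u ∈ Gs m c a s k :=
  ⟨saw_mono h.1 hk, fun r hr p q hpq hq => h.2 r hr p q hpq (hq.trans hk)⟩

/-! ## Rotations -/

/-- The image of a point of the sphere under a linear isometry. -/
noncomputable def rot (R : E m ≃ₗᵢ[ℝ] E m) (x : Sp m) : Sp m := ⟨R x, by simp [norm_sp]⟩

/-- The walk with rotated steps. -/
noncomputable def rotO (R : E m ≃ₗᵢ[ℝ] E m) (u : Om m) : Om m := fun i => rot R (u i)

theorem rotO_S (R : E m ≃ₗᵢ[ℝ] E m) (u : Om m) (i j : ℕ) : S (rotO R u) i j = R (S u i j) := by
  unfold S rotO rot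
  simp

theorem rotO_shift (R : E m ≃ₗᵢ[ℝ] E m) (u : Om m) (a : ℕ) :
    shift a (rotO R u) = rotO R (shift a u) := rfl

theorem rotO_Saw {R : E m ≃ₗᵢ[ℝ] E m} {u : Om m} {c : ℝ} {n : ℕ} :
    rotO R u ∈ Saw m c n ↔ u ∈ Saw m c n := by
  simp [Saw, rotO_S]

end Pool.Agent.H948.HS
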