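import Mathlib

/-!
# The self-avoiding walk on hyperbolic space: definitions

The dimension is `m + 1`. The steps of all walks are independent uniform points of the unit sphere
of `ℝ^(m+1)`; the coordinate `0` is the vertical one.
-/

set_option autoImplicit false

namespace Pool.Agent.H948.HS

open MeasureTheory ProbabilityTheory Set Filter Metric
open scoped ENNReal NNReal Topology RealInnerProductSpace

/-- The Euclidean space of dimension `m + 1`. -/
abbrev E (m : ℕ) : Type := EuclideanSpace ℝ (Fin (m + 1))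

/-- Its unit sphere. -/
abbrev Sp (m : ℕ) : Type := sphere (0 : E m) 1

/-- The uniform probability measure on the unit sphere: normalised surface measure. -/
noncomputable def sig (m : ℕ) : Measure (Sp m) :=
  ((volume : Measure (E m)).toSphere univ)⁻¹ • (volume : Measure (E m)).toSphere

/-- Sequences of steps. -/
abbrev Om (m : ℕ) : Type := ℕ → Sp m

/-- The law of independent uniform steps. -/
noncomputable def Pm (m : ℕ) : Measure (Om m) := Measure.infinitePi fun _ : ℕ => sig m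

/-! ## Hyperbolic space and the walk -/

/-- Points of the upper half-space model of the hyperbolic space of dimension `m + 1`: the pair
`(b, a)`, `b ∈ ℝ^m`, `a > 0`. -/
abbrev Pt (m : ℕ) : Type := EuclideanSpace ℝ (Fin m) × ℝ

/-- The hyperbolic distance. -/
noncomputable def hdist {m : ℕ} (p q : Pt m) : ℝ :=
  Real.arcosh (1 + (‖p.1 - q.1‖ ^ 2 + (p.2 - q.2) ^ 2) / (2 * p.2 * q.2))

/-- The point `exp_o (ε x)`: the end of the geodesic of length `ε` which starts in `o = (0, 1)` in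
the direction of the unit vector `x` (`x 0` is the vertical coordinate). -/
noncomputable def inc {m : ℕ} (ε : ℝ) (x : E m) : Pt m :=
  ((Real.sinh ε / (Real.cosh ε - Real.sinh ε * x 0)) •
      (WithLp.toLp 2 fun i : Fin m => x i.succ : EuclideanSpace ℝ (Fin m)),
    1 / (Real.cosh ε - Real.sinh ε * x 0))

/-- The isometry `q ↦ (b + a q₁, a q₂)`, which takes `o = (0, 1)` to `p = (b, a)`. -/
noncomputable def act {m : ℕ} (p q : Pt m) : Pt m := (p.1 + p.2 • q.1, p.2 * q.2)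

/-- The walk: `X 0 = o`, and `X (n + 1)` is the point of the geodesic sphere of radius `ε` around
`X n` in the direction `u n`. -/
noncomputable def X {m : ℕ} (ε : ℝ) (u : Om m) : ℕ → Pt m
  | 0 => (0, 1)
  | n + 1 => act (X ε u n) (inc ε (u n : E m))

/-- The event that the walk of `n` steps of length `ε` keeps its points at distance `> c ε`. -/
def Av {m : ℕ} (ε c : ℝ) (n : ℕ) : Set (Om m) :=
  {u | ∀ i j, i < j → j ≤ n → c * ε < hdist (X ε u i) (X ε u j)}

/-- The mean end-to-end distance of the `(n, ε)`-SAW: the conditional expectation of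
`d (x_0, x_n)` given the event `Av`. -/
noncomputable def meanDist (m : ℕ) (ε c : ℝ) (n : ℕ) : ℝ :=
  (∫ u in Av ε c n, hdist (X ε u 0) (X ε u n) ∂(Pm m)) / (Pm m).real (Av ε c n)

/-! ## The Euclidean walk -/

/-- The displacement between the times `i` and `j`. -/
noncomputable def S {m : ℕ} (u : Om m) (i j : ℕ) : E m := ∑ k ∈ Finset.Ico i j, (u k : E m)

/-- The vertical unit vector. -/
noncomputable def e0 (m : ℕ) : E m := EuclideanSpace.single 0 1

/-- The height gained between the times `i` and `j`. -/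
noncomputable def ht {m : ℕ} (u : Om m) (i j : ℕ) : ℝ := (S u i j) 0

/-- The steps from the time `a` on. -/
def shift {m : ℕ} (a : ℕ) (u : Om m) : Om m := fun i => u (a + i)

/-- `A` depends only on the first `n` steps. -/
def Loc {m : ℕ} (n : ℕ) (A : Set (Om m)) : Prop :=
  ∀ u v : Om m, (∀ i < n, u i = v i) → (u ∈ A ↔ v ∈ A)

/-- Self-avoiding walks of `n` steps. -/
def Saw (m : ℕ) (c : ℝ) (n : ℕ) : Set (Om m) := {u | ∀ i j, i < j → j ≤ n → c < ‖S u i j‖}

/-- (Strong) bridges of `n` steps. -/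
def Brd (m : ℕ) (c : ℝ) (n : ℕ) : Set (Om m) :=
  {u | u ∈ Saw m c n ∧ (∀ j, 0 < j → j ≤ n → c < ht u 0 j) ∧ ∀ j, j < n → ht u 0 j < ht u 0 n}

/-- Weak bridges of `n` steps in the direction `f`. -/
def Wb (m : ℕ) (c : ℝ) (f : E m) (n : ℕ) : Set (Om m) :=
  {u | u ∈ Saw m c n ∧ ∀ j, j ≤ n → 0 ≤ ⟪f, S u 0 j⟫ ∧ ⟪f, S u 0 j⟫ ≤ ⟪f, S u 0 n⟫}

/-- Self-avoiding walks of `n` steps with displacement at least `a`. -/
def Far (m : ℕ) (c : ℝ) (a : ℝ) (n : ℕ) : Set (Om m) := {u | u ∈ Saw m c n ∧ a ≤ ‖S u 0 n‖}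

/-- Self-avoiding walks of `n` steps with height at least `a`. -/
def High (m : ℕ) (c : ℝ) (a : ℝ) (n : ℕ) : Set (Om m) := {u | u ∈ Saw m c n ∧ a ≤ ht u 0 n}

/-- Nice pieces: self-avoiding, weak bridges in the vertical direction, at all times close to the
straight line of speed `v` seen from the start and from the end, and very close to it at the end. -/
def Nice (m : ℕ) (c v C ζ : ℝ) (n : ℕ) : Set (Om m) :=
  {u | u ∈ Saw m c n ∧ (∀ j, j ≤ n → 0 ≤ ht u 0 j ∧ ht u 0 j ≤ ht u 0 n) ∧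
    (∀ j, j ≤ n → ‖S u 0 j - (v * j) • e0 m‖ ≤ v / 2 * j + C ∧
      ‖S u j n - (v * (n - j)) • e0 m‖ ≤ v / 2 * (n - j) + C) ∧
    ‖S u 0 n - (v * n) • e0 m‖ ≤ ζ * n}

/-- The probability of self-avoidance. -/
noncomputable def Z (m : ℕ) (c : ℝ) (n : ℕ) : ℝ := (Pm m).real (Saw m c n)

/-- The probability of bridges. -/
noncomputable def B (m : ℕ) (c : ℝ) (n : ℕ) : ℝ := (Pm m).real (Brd m c n)

/-- The connective constant. -/
noncomputable def lam (m : ℕ) (c : ℝ) : ℝ := ⨅ n : ℕ, Z m c (n + 1) ^ (1 / ((n : ℝ) + 1))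

/-- The probability that a step gains height more than `c`. -/
noncomputable def pc (m : ℕ) (c : ℝ) : ℝ := (sig m).real {x | c < (x : E m) 0}

/-- Ballisticity with the largest possible speed `v`. -/
def Ball (m : ℕ) (c v : ℝ) : Prop :=
  0 < v ∧ v ≤ 1 ∧
  (∀ ε : ℝ, 0 < ε → ∃ θ : ℝ, 0 < θ ∧ θ < 1 ∧ ∃ n0 : ℕ, ∀ n ≥ n0,
    (Pm m).real (Far m c ((v + ε) * n) n) ≤ (θ * lam m c) ^ n) ∧
  (∀ ε θ : ℝ, 0 < ε → 0 < θ → θ < 1 → ∀ N : ℕ, 1 ≤ N → ∀ K0 : ℕ, ∃ K ≥ K0,
    (θ * lam m c) ^ (K * N) ≤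
      (Pm m).real (High m c ((v - ε) * ((K * N : ℕ) : ℝ)) (K * N)))

/-- The block `i` of length `l` is not straight. -/
def bad {m : ℕ} (v ζ : ℝ) (l : ℕ) (u : Om m) (i : ℕ) : Prop :=
  ζ * l < ‖S u (i * l) ((i + 1) * l) - (v * l) • e0 m‖

/-- The time `t0` is a cone time of the path of `T` steps. -/
def Cone {m : ℕ} (v C : ℝ) (u : Om m) (T t0 : ℕ) : Prop :=
  ∀ t, t ≤ T →
    ‖(S u 0 t - S u 0 t0) - (v * ((t : ℝ) - t0)) • e0 m‖ ≤ v / 2 * |(t : ℝ) - t0| + C

/-- Walks with small oscillation in the first `a` coordinate directions. -/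
def Gs (m : ℕ) (c : ℝ) (a : ℕ) (s : ℝ) (n : ℕ) : Set (Om m) :=
  {u | u ∈ Saw m c n ∧ ∀ r : Fin (m + 1), (r : ℕ) < a → ∀ i j, i ≤ j → j ≤ n → |(S u i j) r| < s}

/-! ## The hyperbolic walk in units of the step length -/

/-- Distance from the start after `n` steps. -/
noncomputable def Dn {m : ℕ} (ε : ℝ) (u : Om m) (n : ℕ) : ℝ := hdist (0, 1) (X ε u n) / ε

/-- Height after `n` steps. -/
noncomputable def Hn {m : ℕ} (ε : ℝ) (u : Om m) (n : ℕ) : ℝ := Real.log (X ε u n).2 / ε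

/-- Self-avoiding walks. -/
def HSaw (m : ℕ) (ε c : ℝ) (n : ℕ) : Set (Om m) :=
  {u | ∀ i j, i < j → j ≤ n → c < Dn ε (shift i u) (j - i)}

/-- Bridges. -/
def HBr (m : ℕ) (ε c : ℝ) (n : ℕ) : Set (Om m) :=
  {u | u ∈ HSaw m ε c n ∧ (∀ j, 0 < j → j ≤ n → c < Hn ε u j) ∧ ∀ j, j < n → Hn ε u j < Hn ε u n}

/-- Self-avoiding walks with displacement at least `a`. -/
def HFar (m : ℕ) (ε c a : ℝ) (n : ℕ) : Set (Om m) := {u | u ∈ HSaw m ε c n ∧ a ≤ Dn ε u n}

end Pool.Agent.H948.HS
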