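import Pool.Agent.H948.HS.Stm

/-!
# HS-BLOCK: independence and stationarity of disjoint blocks of steps
-/

set_option autoImplicit false

namespace Pool.Agent.H948.HS.Blk

open MeasureTheory ProbabilityTheory Set Filter
open scoped ENNReal NNReal Nat Topology

variable {m : ℕ}

/-- the sigma-algebra of the coordinates in `I` -/
@[reducible] def sg (m : ℕ) (I : Set ℕ) : MeasurableSpace (Om m) :=
  ⨆ j ∈ I, MeasurableSpace.comap (fun ω : Om m => ω j) inferInstance

theorem sg_mono {I I' : Set ℕ} (h : I ⊆ I') : sg m I ≤ sg m I' := by
  unfold sg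
  exact biSup_mono fun j hj => h hj

theorem sp_nonempty : Nonempty (Sp m) := ⟨⟨e0 m, by simp [norm_e0]⟩⟩

/-- sets which depend on the coordinates in `I` are measurable with respect to `sg I` -/
theorem meas_sg (A : Set (Om m)) (I : Set ℕ) (hA : MeasurableSet A)
    (hdep : ∀ u v : Om m, (∀ j ∈ I, u j = v j) → (u ∈ A ↔ v ∈ A)) :
    MeasurableSet[sg m I] A := by
  classical
  obtain ⟨z⟩ := sp_nonempty (m := m)
  let ext : (I → Sp m) → Om m := fun x j => if h : j ∈ I then x ⟨j, h⟩ else z
  have hext : Measurable ext := by
    refine measurable_pi_iff.2 fun j => ?_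
    by_cases h : j ∈ I
    · have e : (fun x : I → Sp m => ext x j) = fun x => x ⟨j, h⟩ := by
        funext x
        simp only [ext, dif_pos h]
      rw [e]
      exact measurable_pi_apply _
    · have e : (fun x : I → Sp m => ext x j) = fun _ => z := by
        funext x
        simp only [ext, dif_neg h]
      rw [e]
      exact measurable_const
  let rs : Om m → (I → Sp m) := fun ω j => ω j
  have hrs : @Measurable _ _ (sg m I) _ rs := by
    refine (@measurable_pi_iff _ _ _ (sg m I) _ rs).2 fun j => ?_
    refine Measurable.mono (ma := MeasurableSpace.comap (fun ω : Om m => ω j) inferInstance)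
      (comap_measurable _) ?_ le_rfl
    exact le_biSup (fun j : ℕ => MeasurableSpace.comap (fun ω : Om m => ω j) inferInstance) j.2
  have e : A = rs ⁻¹' (ext ⁻¹' A) := by
    ext u
    refine hdep _ _ fun j hj => ?_
    simp only [ext, rs, dif_pos hj]
  rw [e]
  exact hrs (hext hA)

/-- stationarity -/
theorem map_shift (a : ℕ) : (Pm m).map (shift a) = Pm m := by
  unfold Pm
  refine Measure.eq_infinitePi _ fun s t ht => ?_
  rw [Measure.map_apply (measurable_shift a) (MeasurableSet.pi (Finset.countable_toSet _)
    fun i _ => ht i)]
  have e : (shift a : Om m → Om m) ⁻¹' (Set.pi (↑s) t) =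
      Set.pi (↑(s.image fun i => a + i)) (fun j => t (j - a)) := by
    ext u
    simp only [mem_preimage, Set.mem_pi, Finset.mem_coe, Finset.mem_image, shift]
    constructor
    · rintro h j ⟨i, hi, rfl⟩
      simpa using h i hi
    · intro h i hi
      simpa using h (a + i) ⟨i, hi, rfl⟩
  rw [e, Measure.infinitePi_pi, Finset.prod_image]
  · simp
  · intro i _ j _ h
    simpa using h
  · intro j hj
    exact ht _

theorem prob_shift (a : ℕ) {A : Set (Om m)} (hA : MeasurableSet A) :
    Pm m {u | shift a u ∈ A} = Pm m A := by
  conv_rhs => rw [← map_shift (m := m) a, Measure.map_apply (measurable_shift a) hA]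
  rfl

theorem s_block : S_BLOCK := by
  classical
  intro m k t n A hA ht
  have hind : iIndep (fun j : ℕ => MeasurableSpace.comap (fun ω : Om m => ω j) inferInstance)
      (Pm m) := by
    have h := iIndepFun_infinitePi (P := fun _ : ℕ => sig m) (X := fun _ ω ↦ ω) (by fun_prop)
    exact (iIndepFun_iff_iIndep _ _ _).1 h
  have hle : ∀ j : ℕ, MeasurableSpace.comap (fun ω : Om m => ω j) inferInstance ≤
      (MeasurableSpace.pi : MeasurableSpace (Om m)) := fun j => (measurable_pi_apply j).comap_le
  -- the coordinates of the block `i`
  let I : ℕ → Set ℕ := fun i => Set.Ico (t i) (t i + n i)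
  let B : ℕ → Set (Om m) := fun i => {u | shift (t i) u ∈ A i}
  have hBm : ∀ i < k, MeasurableSet[sg m (I i)] (B i) := by
    intro i hi
    refine meas_sg _ _ (measurable_shift (t i) (hA i hi).1) fun u v huv => ?_
    refine (hA i hi).2 _ _ fun j hj => ?_
    exact huv (t i + j) ⟨Nat.le_add_right _ _, Nat.add_lt_add_left hj _⟩
  have key : ∀ r ≤ k, Pm m {u | ∀ i < r, u ∈ B i} = ∏ i ∈ Finset.range r, Pm m (A i) ∧
      MeasurableSet[sg m (⋃ i ∈ Finset.range r, I i)] {u | ∀ i < r, u ∈ B i} := by
    intro r
    induction r with
    | zero =>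
      intro _
      have e : {u : Om m | ∀ i < 0, u ∈ B i} = univ := by ext u; simp
      rw [e]
      exact ⟨by simp, MeasurableSet.univ⟩
    | succ r ih =>
      intro hr
      obtain ⟨h1, h2⟩ := ih (by omega)
      have e : {u : Om m | ∀ i < r + 1, u ∈ B i} = {u | ∀ i < r, u ∈ B i} ∩ B r := by
        ext u
        simp only [mem_inter_iff]
        constructor
        · intro h
          exact ⟨fun i hi => h i (by omega), h r (by omega)⟩
        · rintro ⟨h, h'⟩ i hi
          rcases Nat.lt_succ_iff_lt_or_eq.1 hi with h3 | h3
          · exact h i h3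
          · subst h3; exact h'
      have hmono : ∀ i, i < r → t i + n i ≤ t r := by
        intro i hi
        have : ∀ d, i + d + 1 ≤ r → t i + n i ≤ t (i + d + 1) := by
          intro d
          induction d with
          | zero => intro h; exact ht i (by omega)
          | succ d ih2 =>
            intro h
            have h1 := ih2 (by omega)
            have h2 := ht (i + d + 1) (by omega)
            have : i + (d + 1) + 1 = i + d + 1 + 1 := by ring
            rw [this]
            omega
        have h3 := this (r - i - 1) (by omega)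
        have h4 : i + (r - i - 1) + 1 = r := by omega
        rwa [h4] at h3
      have hd : Disjoint (⋃ i ∈ Finset.range r, I i) (I r) := by
        rw [Set.disjoint_iUnion₂_left]
        intro i hi
        have := hmono i (Finset.mem_range.1 hi)
        refine Set.disjoint_left.2 fun x hx hx' => ?_
        have h5 := hx.2
        have h6 := hx'.1
        omega
      have hInd := indep_iSup_of_disjoint hle hind hd
      have h3 := (Indep_iff _ _ _).1 hInd _ _ h2 (hBm r (by omega))
      refine ⟨?_, ?_⟩
      · rw [e, h3, h1, Finset.prod_range_succ, prob_shift _ (hA r (by omega)).1]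
      · rw [e]
        refine MeasurableSet.inter (m := sg m (⋃ i ∈ Finset.range (r + 1), I i)) ?_ ?_
        · refine sg_mono ?_ _ h2
          refine Set.biUnion_subset_biUnion_left fun i hi => ?_
          exact Finset.mem_range.2 (lt_trans (Finset.mem_range.1 hi) (Nat.lt_succ_self r))
        · refine sg_mono ?_ _ (hBm r (by omega))
          exact Set.subset_biUnion_of_mem (u := fun k => I k) (Finset.mem_range.2 (by omega))
  have h := (key k le_rfl).1
  have h' : (Pm m).real {u | ∀ i < k, shift (t i) u ∈ A i} =
      (∏ i ∈ Finset.range k, Pm m (A i)).toReal := by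
    rw [← h]; rfl
  rw [h', ENNReal.toReal_prod]
  rfl

end Pool.Agent.H948.HS.Blk
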