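import Pool.Agent.H948.HS.Stm

/-!
# The theorem from the pieces
-/

set_option autoImplicit false

namespace Pool.Agent.H948.HS

open MeasureTheory ProbabilityTheory Set Filter Metric
open scoped ENNReal NNReal Topology RealInnerProductSpace

variable {m : ℕ}

/-- Choice of the block length. -/
theorem fin_choose (hsub : S_SUB) (hM : S_LAM) (hHW : S_HW) (m : ℕ) (c δ : ℝ) (M : ℕ)
    (hm : 1 ≤ m) (hc0 : 0 < c) (hc1 : c < 1) (hδ : 0 < δ) (hM1 : 1 ≤ M) :
    ∃ l : ℕ, 1 ≤ l ∧ 0 < B m c l ∧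
      2 ^ M * ((Pm m).real (Far m c (δ * l) l) * Z m c l ^ (M - 1)) < B m c l ^ M := by
  obtain ⟨θ, hθ0, hθ1, n0, hfar⟩ := hsub m c δ hm hc0 hc1 hδ
  obtain ⟨hl0, hl1, hZ0, -, -, hZu⟩ := hM m c hc0 hc1
  set L := lam m c with hL
  -- choose `τ > 1` with `θ τ ^ (2 M) < 1`
  obtain ⟨τ, hτ1, hτ⟩ : ∃ τ : ℝ, 1 < τ ∧ θ * τ ^ (2 * M) < 1 := by
    have hcont : Tendsto (fun τ : ℝ => θ * τ ^ (2 * M)) (𝓝[>] 1) (𝓝 (θ * 1 ^ (2 * M))) :=
      ((continuous_const.mul (continuous_pow _)).tendsto 1).mono_left nhdsWithin_le_nhds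
    rw [one_pow, mul_one] at hcont
    have h1 := hcont.eventually (gt_mem_nhds hθ1)
    have h2 : ∀ᶠ τ : ℝ in 𝓝[>] 1, 1 < τ := self_mem_nhdsWithin
    exact (h2.and h1).exists
  have hτ0 : 0 < τ := by linarith
  obtain ⟨D, hD1, hD⟩ := hZu (τ * L) (by nlinarith)
  obtain ⟨n1, hn1⟩ := hHW m c (L / τ) hc0 hc1 (by positivity) (by
    rw [div_lt_iff₀ hτ0]; nlinarith)
  -- the ratio
  set r : ℝ := θ * τ ^ (2 * M) with hr
  have hr0 : 0 < r := by positivity
  have htend : Tendsto (fun l : ℕ => 2 ^ M * D ^ (M - 1) * r ^ l) atTop (𝓝 0) := by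
    have := (tendsto_pow_atTop_nhds_zero_of_lt_one hr0.le hτ).const_mul (2 ^ M * D ^ (M - 1))
    simpa using this
  have hev := htend.eventually (gt_mem_nhds (show (0 : ℝ) < 1 by norm_num))
  obtain ⟨l, hl⟩ := ((hev.and (eventually_ge_atTop n0)).and
    ((eventually_ge_atTop n1).and (eventually_ge_atTop 1))).exists
  obtain ⟨⟨hlr, hln0⟩, hln1, hl1'⟩ := hl
  have hBl : (L / τ) ^ l ≤ B m c l := hn1 l hln1
  have hBpos : 0 < B m c l := lt_of_lt_of_le (by positivity) hBl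
  refine ⟨l, hl1', hBpos, ?_⟩
  have hF := hfar l hln0
  have hZl := hD l
  have hZnn : 0 ≤ Z m c l := (hZ0 l).le
  calc 2 ^ M * ((Pm m).real (Far m c (δ * l) l) * Z m c l ^ (M - 1))
      ≤ 2 ^ M * ((θ * L) ^ l * (D * (τ * L) ^ l) ^ (M - 1)) := by
        gcongr
    _ < ((L / τ) ^ l) ^ M := by
        have hM' : M = (M - 1) + 1 := by omega
        have hpos : 0 < ((L / τ) ^ l) ^ M := by positivity
        have key : 2 ^ M * ((θ * L) ^ l * (D * (τ * L) ^ l) ^ (M - 1)) ≤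
            (2 ^ M * D ^ (M - 1) * r ^ l) * ((L / τ) ^ l) ^ M := by
          have e1 : (2 ^ M * D ^ (M - 1) * r ^ l) * ((L / τ) ^ l) ^ M =
              2 ^ M * D ^ (M - 1) * ((θ * L) ^ l * ((τ * L) ^ l) ^ (M - 1)) * τ ^ l := by
            rw [hr, div_pow, div_pow]
            have e2 : ((L ^ l) ^ M : ℝ) = L ^ l * (L ^ l) ^ (M - 1) := by
              conv_lhs => rw [hM']
              rw [pow_succ]; ring
            have e3 : ((τ ^ (2 * M)) ^ l : ℝ) = (τ ^ l) ^ M * (τ ^ l) ^ M := by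
              rw [← pow_mul, ← pow_mul, ← pow_add]; congr 1; ring
            have e4 : ((τ ^ l) ^ M : ℝ) = τ ^ l * (τ ^ l) ^ (M - 1) := by
              conv_lhs => rw [hM']
              rw [pow_succ]; ring
            rw [mul_pow θ, mul_pow θ, mul_pow τ, mul_pow (τ ^ l), e2, e3]
            field_simp
            rw [e4]
          rw [e1]
          have hτl : (1 : ℝ) ≤ τ ^ l := one_le_pow₀ hτ1.le
          have hnn : 0 ≤ 2 ^ M * D ^ (M - 1) * ((θ * L) ^ l * ((τ * L) ^ l) ^ (M - 1)) := by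
            positivity
          have e5 : 2 ^ M * ((θ * L) ^ l * (D * (τ * L) ^ l) ^ (M - 1)) =
              2 ^ M * D ^ (M - 1) * ((θ * L) ^ l * ((τ * L) ^ l) ^ (M - 1)) := by
            rw [mul_pow D]; ring
          rw [e5]
          exact le_mul_of_one_le_right hnn hτl
        refine key.trans_lt ?_
        nlinarith
    _ ≤ _ := by gcongr

/-- The bounds for small step length. -/
theorem fin_small (hsub : S_SUB) (hM : S_LAM) (hHW : S_HW) (hlim : S_HLIM) (m : ℕ) (c δ : ℝ)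
    (M : ℕ) (hm : 1 ≤ m) (hc0 : 0 < c) (hc1 : c < 1) (hδ : 0 < δ) (hM1 : 1 ≤ M) :
    ∃ (l : ℕ) (ε0 w z b : ℝ), 1 ≤ l ∧ 0 < ε0 ∧ 0 < b ∧ b ≤ z ∧ 0 ≤ w ∧
      2 ^ M * (w * z ^ (M - 1)) < b ^ M ∧
      ∀ ε : ℝ, 0 < ε → ε < ε0 → (Pm m).real (HFar m ε c (δ * l) l) ≤ w ∧
        (Pm m).real (HSaw m ε c l) ≤ z ∧ b ≤ (Pm m).real (HBr m ε c l) := by
  obtain ⟨l, hl, hB, hlt⟩ := fin_choose hsub hM hHW m c δ M hm hc0 hc1 hδ hM1
  have hBZ : B m c l ≤ Z m c l := measureReal_mono (fun u hu => hu.1)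
  have c1 : Tendsto (fun η : ℝ => 2 ^ M * (((Pm m).real (Far m c (δ * l) l) + η) *
      (Z m c l + η) ^ (M - 1))) (𝓝[>] 0) (𝓝 (2 ^ M * (((Pm m).real (Far m c (δ * l) l) + 0) *
      (Z m c l + 0) ^ (M - 1)))) :=
    (Continuous.tendsto (by fun_prop) 0).mono_left nhdsWithin_le_nhds
  have c2 : Tendsto (fun η : ℝ => (B m c l - η) ^ M) (𝓝[>] 0) (𝓝 ((B m c l - 0) ^ M)) :=
    (Continuous.tendsto (by fun_prop) 0).mono_left nhdsWithin_le_nhds
  have c3 : Tendsto (fun η : ℝ => B m c l - η) (𝓝[>] 0) (𝓝 (B m c l - 0)) :=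
    (Continuous.tendsto (by fun_prop) 0).mono_left nhdsWithin_le_nhds
  rw [add_zero, add_zero] at c1
  rw [sub_zero] at c2 c3
  have e1 := c1.eventually_lt c2 hlt
  have e2 := c3.eventually (lt_mem_nhds hB)
  have e3 : ∀ᶠ η : ℝ in 𝓝[>] 0, 0 < η := self_mem_nhdsWithin
  obtain ⟨η, ⟨h1, h2⟩, h3⟩ := ((e1.and e2).and e3).exists
  obtain ⟨ε0, hε0, hlimε⟩ := hlim m c (δ * l) η l hm hc0 hc1 h3
  refine ⟨l, ε0, _, _, _, hl, hε0, h2, by linarith, by positivity, h1, fun ε he1 he2 => ?_⟩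
  obtain ⟨a1, a2, a3⟩ := hlimε ε he1 he2
  exact ⟨a2, a1, a3⟩

/-- The ratio bound. -/
theorem fin_ratio (hsub : S_SUB) (hM : S_LAM) (hHW : S_HW) (hlim : S_HLIM) (hup : S_HUP)
    (hlo : S_HLO) (hlo1 : S_HLO1) (m : ℕ) (c δ : ℝ) (hm : 1 ≤ m) (hc0 : 0 < c) (hc1 : c < 1)
    (hδ : 0 < δ) (hδ1 : δ ≤ 1) :
    ∃ (l M : ℕ) (ε0 K r : ℝ), 1 ≤ l ∧ 1 ≤ M ∧ 0 < ε0 ∧ 0 ≤ K ∧ 0 ≤ r ∧ r < 1 ∧ ∃ N0 : ℕ,
      ∀ ε : ℝ, 0 < ε → ε < ε0 → ∀ n ≥ N0,
        (Pm m).real (HFar m ε c (δ * n) n) ≤ K * r ^ (n / l / M) * (Pm m).real (HSaw m ε c n) := by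
  obtain ⟨M, hM4⟩ := exists_nat_gt (4 / δ)
  have hM4' : 4 < δ * M := by rwa [div_lt_iff₀' hδ] at hM4
  have hM1 : 1 ≤ M := by
    rcases Nat.eq_zero_or_pos M with h | h
    · subst h; norm_num at hM4'
    · exact h
  obtain ⟨l, ε0, w, z, b, hl, hε0, hb, hbz, hw, hlt, hε⟩ :=
    fin_small hsub hM hHW hlim m c (δ / 2) M hm hc0 hc1 (by positivity) hM1
  obtain ⟨ε1, p1, hε1, hp1, hone⟩ := hlo1 m c hm hc0 hc1
  have hz : 0 < z := lt_of_lt_of_le hb hbz
  set r : ℝ := 2 ^ M * (w * z ^ (M - 1)) / b ^ M with hr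
  have hr0 : 0 ≤ r := by positivity
  have hr1 : r < 1 := by rw [hr, div_lt_one (by positivity)]; exact hlt
  set p : ℝ := min p1 1 with hp
  have hp0 : 0 < p := lt_min hp1 one_pos
  refine ⟨l, M, min ε0 ε1, (2 * z / b) ^ M / p ^ l, r, hl, hM1, lt_min hε0 hε1, by positivity,
    hr0, hr1, M * l, fun ε he1 he2 n hn => ?_⟩
  obtain ⟨a1, a2, a3⟩ := hε ε he1 (he2.trans_le (min_le_left _ _))
  have a4 := hone ε he1 (he2.trans_le (min_le_right _ _))
  set k := n / l with hk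
  set s := n % l with hs
  have hn_eq : n = k * l + s := by rw [hk, hs]; exact (Nat.div_add_mod' n l).symm
  have hsl : s < l := Nat.mod_lt _ hl
  have hkM : M ≤ k := by rw [hk]; exact (Nat.le_div_iff_mul_le hl).2 hn
  set j := k / M with hj
  have hjk : j ≤ k := Nat.div_le_self _ _
  have hj1 : (j : ℝ) + 1 ≤ δ / 2 * k := by
    have h1 : (j : ℝ) ≤ k / M := by rw [hj]; exact Nat.cast_div_le
    have hMr : (0 : ℝ) < M := by exact_mod_cast hM1
    have hkr : (M : ℝ) ≤ k := by exact_mod_cast hkM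
    have h2 : (k : ℝ) / M ≤ δ / 4 * k := by
      rw [div_le_iff₀ hMr]
      have : (0 : ℝ) ≤ k := by positivity
      nlinarith
    nlinarith
  have hU := hup m ε c δ l k s j he1 hc0 hδ hδ1 hl hsl (by omega) hj1 hjk
  have hLo := hlo m ε c l k s he1 hc0
  rw [← hn_eq] at hU hLo
  -- upper bound
  have hU2 : (Pm m).real (HFar m ε c (δ * n) n) ≤ 2 ^ k * w ^ j * z ^ (k - j) :=
    hU.trans (by gcongr)
  have hL2 : b ^ k * p ^ l ≤ (Pm m).real (HSaw m ε c n) := by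
    refine le_trans ?_ hLo
    have h1 : p ^ l ≤ (Pm m).real (HBr m ε c 1) ^ s := by
      calc p ^ l ≤ p ^ s := pow_le_pow_of_le_one hp0.le (min_le_right _ _) hsl.le
        _ ≤ _ := by
          gcongr
          exact (min_le_left _ _).trans a4
    gcongr
  refine hU2.trans ?_
  have hrw : (2 * z / b) ^ M / p ^ l * r ^ j * (b ^ k * p ^ l) ≤
      (2 * z / b) ^ M / p ^ l * r ^ j * (Pm m).real (HSaw m ε c n) :=
    mul_le_mul_of_nonneg_left hL2 (by positivity)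
  refine le_trans ?_ hrw
  -- the algebra
  set t := k % M with ht
  have hkt : k = j * M + t := by rw [hj, ht]; exact (Nat.div_add_mod' k M).symm
  have htM : t < M := Nat.mod_lt _ hM1
  have hkj : k - j = (M - 1) * j + t := by
    obtain ⟨M', rfl⟩ : ∃ M', M = M' + 1 := ⟨M - 1, by omega⟩
    rw [hkt]
    have : j * (M' + 1) = M' * j + j := by ring
    rw [this]
    simp only [Nat.add_sub_cancel]
    omega
  have e1 : (2 : ℝ) ^ k * w ^ j * z ^ (k - j) = r ^ j * b ^ k * (2 * z / b) ^ t := by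
    rw [hkj, hr, div_pow, div_pow, mul_pow, mul_pow, mul_pow]
    have h2k : (2 : ℝ) ^ k = (2 ^ M) ^ j * 2 ^ t := by
      rw [← pow_mul, ← pow_add, hkt]; congr 1; ring
    have hbk : b ^ k = (b ^ M) ^ j * b ^ t := by
      rw [← pow_mul, ← pow_add, hkt]; congr 1; ring
    rw [h2k, hbk, pow_add, pow_mul]
    field_simp
  rw [e1]
  have h2zb : 1 ≤ 2 * z / b := by
    rw [le_div_iff₀ hb]; linarith
  have h3 : (2 * z / b) ^ t ≤ (2 * z / b) ^ M := pow_le_pow_right₀ h2zb htM.le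
  calc r ^ j * b ^ k * (2 * z / b) ^ t ≤ r ^ j * b ^ k * (2 * z / b) ^ M := by gcongr
    _ = _ := by field_simp

/-- `Av` in units of the step length. -/
theorem av_eq (hg : S_HG) (m : ℕ) (ε c : ℝ) (n : ℕ) (hε : 0 < ε) :
    Av (m := m) ε c n = HSaw m ε c n := by
  obtain ⟨-, h2, -⟩ := hg m ε hε
  ext u
  simp only [Av, HSaw, Set.mem_ofPred_eq]
  refine forall_congr' fun i => forall_congr' fun j => forall_congr' fun hij =>
    forall_congr' fun _ => ?_
  rw [h2 u i j hij.le, mul_comm c ε]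
  exact mul_lt_mul_iff_right₀ hε

theorem Dn_le (hg : S_HG) (m : ℕ) (ε : ℝ) (hε : 0 < ε) (n : ℕ) :
    ∀ u : Om m, Dn ε u n ≤ n := by
  obtain ⟨-, -, -, -, h5, h6⟩ := hg m ε hε
  induction n with
  | zero => intro u; rw [(h6 u).1]; simp
  | succ n ih =>
    intro u
    have := h5 u n 1
    rw [(h6 (shift n u)).2] at this
    push_cast
    linarith [ih u]

theorem fin_main (hg : S_HG) (hm' : S_HM) (hsub : S_SUB) (hM : S_LAM) (hHW : S_HW)
    (hlim : S_HLIM) (hup : S_HUP) (hlo : S_HLO) (hlo1 : S_HLO1) (hpos : S_POS)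
    (m : ℕ) (c : ℝ) (hm : 1 ≤ m) (hc0 : 0 < c) (hc1 : c < 1) :
    (∀ n : ℕ, 1 ≤ n → 0 < (Pm m).real (Av (m := m) (1 / (n : ℝ)) c n)) ∧
    Tendsto (fun n : ℕ => meanDist m (1 / (n : ℝ)) c n) atTop (𝓝 0) := by
  have hP : ∀ n : ℕ, 1 ≤ n → 0 < (Pm m).real (Av (m := m) (1 / (n : ℝ)) c n) := fun n hn =>
    hpos m _ c n (by have : (0 : ℝ) < n := by exact_mod_cast hn
                     positivity) hc0 hc1
  refine ⟨hP, ?_⟩
  rw [Metric.tendsto_atTop]
  intro η hη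
  set δ : ℝ := min (η / 2) 1 with hδ
  have hδ0 : 0 < δ := lt_min (by positivity) one_pos
  obtain ⟨l, M, ε0, K, r, hl, hM1, hε0, hK, hr0, hr1, N0, hratio⟩ :=
    fin_ratio hsub hM hHW hlim hup hlo hlo1 m c δ hm hc0 hc1 hδ0 (min_le_right _ _)
  have ht1 : Tendsto (fun n : ℕ => K * r ^ (n / l / M)) atTop (𝓝 0) := by
    have h1 : Tendsto (fun n : ℕ => n / l / M) atTop atTop :=
      (Nat.tendsto_div_const_atTop (by omega)).comp (Nat.tendsto_div_const_atTop (by omega))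
    have h2 := ((tendsto_pow_atTop_nhds_zero_of_lt_one hr0 hr1).comp h1).const_mul K
    simpa using h2
  have ht2 : Tendsto (fun n : ℕ => 1 / (n : ℝ)) atTop (𝓝 0) := tendsto_one_div_atTop_nhds_zero_nat
  have hev : ∀ᶠ n : ℕ in atTop, (K * r ^ (n / l / M) < η / 2 ∧ 1 / (n : ℝ) < ε0) ∧
      (N0 ≤ n ∧ 1 ≤ n) :=
    ((ht1.eventually (gt_mem_nhds (by positivity))).and
      (ht2.eventually (gt_mem_nhds hε0))).and
      ((eventually_ge_atTop N0).and (eventually_ge_atTop 1))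
  obtain ⟨N, hN⟩ := eventually_atTop.1 hev
  refine ⟨N, fun n hn => ?_⟩
  obtain ⟨⟨hb1, hb2⟩, hb3, hb4⟩ := hN n hn
  have hn0 : (0 : ℝ) < n := by exact_mod_cast hb4
  have hε : (0 : ℝ) < 1 / (n : ℝ) := by positivity
  set ε : ℝ := 1 / (n : ℝ) with hεd
  have hεn : ε * n = 1 := by rw [hεd]; field_simp
  have hr := hratio ε hε hb2 n hb3
  have hPn := hP n hb4
  obtain ⟨-, g2, g3, -, -, -⟩ := hg m ε hε
  have hd : ∀ u : Om m, hdist (X ε u 0) (X ε u n) = ε * Dn ε u n := by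
    intro u
    have := g2 u 0 n (Nat.zero_le _)
    rw [shift_zero, Nat.sub_zero] at this
    exact this
  have hmeasD : Measurable (fun u : Om m => Dn ε u n) := (hm' m ε c 0 n).1
  have hmeasA : MeasurableSet (Av (m := m) ε c n) := by
    rw [av_eq hg m ε c n hε]; exact (hm' m ε c 0 n).2.2.2.1.1
  have hmeasF : MeasurableSet (HFar m ε c (δ * n) n) := (hm' m ε c (δ * n) n).2.2.2.2.2.1
  have hnn : ∀ u : Om m, 0 ≤ ε * Dn ε u n := fun u => mul_nonneg hε.le (g3 u n).1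
  have hle1 : ∀ u : Om m, ε * Dn ε u n ≤ 1 := fun u => by
    calc ε * Dn ε u n ≤ ε * n := mul_le_mul_of_nonneg_left (Dn_le hg m ε hε n u) hε.le
      _ = 1 := hεn
  have hInt0 : 0 ≤ ∫ u in Av ε c n, hdist (X ε u 0) (X ε u n) ∂(Pm m) := by
    refine integral_nonneg fun u => ?_
    simp only [Pi.zero_apply]
    rw [hd u]; exact hnn u
  have hInt : ∫ u in Av ε c n, hdist (X ε u 0) (X ε u n) ∂(Pm m) ≤
      δ * (Pm m).real (Av ε c n) + (Pm m).real (HFar m ε c (δ * n) n) := by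
    have h1 : ∫ u in Av ε c n, hdist (X ε u 0) (X ε u n) ∂(Pm m) ≤
        ∫ u in Av ε c n, (δ + (HFar m ε c (δ * n) n).indicator (fun _ => (1 : ℝ)) u) ∂(Pm m) := by
      refine setIntegral_mono_on ?_ ?_ hmeasA fun u hu => ?_
      · refine Integrable.integrableOn ?_
        have : (fun u : Om m => hdist (X ε u 0) (X ε u n)) = fun u => ε * Dn ε u n :=
          funext hd
        rw [this]
        refine Integrable.of_bound (hmeasD.const_mul ε).aestronglyMeasurable 1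
          (Eventually.of_forall fun u => ?_)
        rw [Real.norm_of_nonneg (hnn u)]; exact hle1 u
      · refine Integrable.integrableOn ?_
        exact (integrable_const δ).add ((integrable_const (1 : ℝ)).indicator hmeasF)
      · rw [hd u]
        by_cases hF : u ∈ HFar m ε c (δ * n) n
        · rw [indicator_of_mem hF]
          linarith [hle1 u]
        · rw [indicator_of_notMem hF, add_zero]
          have hu' : u ∈ HSaw m ε c n := by rw [← av_eq hg m ε c n hε]; exact hu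
          have : ¬ δ * n ≤ Dn ε u n := fun h => hF ⟨hu', h⟩
          push Not at this
          calc ε * Dn ε u n ≤ ε * (δ * n) := mul_le_mul_of_nonneg_left this.le hε.le
            _ = δ * (ε * n) := by ring
            _ = δ := by rw [hεn, mul_one]
    refine h1.trans ?_
    rw [integral_add (integrable_const δ).integrableOn
      ((integrable_const (1 : ℝ)).indicator hmeasF).integrableOn]
    have h2 : ∫ u in Av ε c n, δ ∂(Pm m) = δ * (Pm m).real (Av ε c n) := by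
      rw [setIntegral_const, smul_eq_mul, mul_comm]
    have h3 : ∫ u in Av ε c n, (HFar m ε c (δ * n) n).indicator (fun _ => (1 : ℝ)) u ∂(Pm m) ≤
        (Pm m).real (HFar m ε c (δ * n) n) := by
      rw [integral_indicator hmeasF, Measure.restrict_restrict hmeasF, setIntegral_const,
        smul_eq_mul, mul_one]
      exact measureReal_mono inter_subset_left
    linarith
  have hmean0 : 0 ≤ meanDist m ε c n := div_nonneg hInt0 hPn.le
  have hmean : meanDist m ε c n ≤ δ + K * r ^ (n / l / M) := by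
    unfold meanDist
    rw [div_le_iff₀ hPn]
    refine hInt.trans ?_
    rw [← av_eq hg m ε c n hε] at hr
    linarith
  rw [Real.dist_eq, sub_zero, abs_of_nonneg hmean0]
  have : δ ≤ η / 2 := min_le_left _ _
  linarith

end Pool.Agent.H948.HS
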