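import Pool.Agent.H948.HS.Stm

/-!
# [HLO] Lower bound by bridges
-/

set_option autoImplicit false

namespace Pool.Agent.H97.HS

open MeasureTheory ProbabilityTheory Set Filter Metric
open Pool.Agent.H948.HS

variable {m : ℕ}

/-- two blocks -/
theorem block2 (hB : S_BLOCK) {a b : ℕ} {A A' : Set (Om m)} (hA : MeasurableSet A) (hAl : Loc a A)
    (hA' : MeasurableSet A') (hAl' : Loc b A') :
    (Pm m).real {u | u ∈ A ∧ shift a u ∈ A'} = (Pm m).real A * (Pm m).real A' := by
  have h := hB m 2 (fun i => if i = 0 then 0 else a) (fun i => if i = 0 then a else b)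
    (fun i => if i = 0 then A else A') (by
      intro i hi
      by_cases h0 : i = 0
      · subst h0; exact ⟨hA, hAl⟩
      · simp only [h0, if_false]; exact ⟨hA', hAl'⟩) (by
      intro i hi
      have h0 : i = 0 := by omega
      subst h0
      simp)
  rw [Finset.prod_range_succ, Finset.prod_range_one] at h
  simp only [if_true, one_ne_zero, if_false] at h
  rw [← h]
  congr 1
  ext u
  simp only [Set.mem_ofPred_eq]
  constructor
  · rintro ⟨h1, h2⟩ i hi
    have : i = 0 ∨ i = 1 := by omega
    rcases this with rfl | rfl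
    · simpa [shift_zero] using h1
    · simpa using h2
  · intro h1
    have h2 := h1 0 (by omega)
    have h3 := h1 1 (by omega)
    simp only [if_true, one_ne_zero, if_false, shift_zero] at h2 h3
    exact ⟨h2, h3⟩

/-- concatenation of bridges -/
theorem concat (hg : S_HG) {ε c : ℝ} (hε : 0 < ε) (hc : 0 < c) {a b : ℕ} {u : Om m}
    (h1 : u ∈ HBr m ε c a) (h2 : shift a u ∈ HBr m ε c b) : u ∈ HBr m ε c (a + b) := by
  obtain ⟨-, -, g1, g2, -, -⟩ := hg m ε hε
  obtain ⟨s1, p1, q1⟩ := h1
  obtain ⟨s2, p2, q2⟩ := h2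
  have hH0 : ∀ v : Om m, Hn ε v 0 = 0 := by
    intro v
    have h := g2 v 0 0
    rw [shift_zero] at h
    simp only [add_zero] at h
    linarith
  have hHa : 0 ≤ Hn ε u a := by
    rcases Nat.eq_zero_or_pos a with rfl | ha
    · rw [hH0]
    · exact (hc.trans (p1 a ha le_rfl)).le
  refine ⟨?_, ?_, ?_⟩
  · intro i j hij hj
    rcases le_or_gt j a with hja | hja
    · exact s1 i j hij hja
    · obtain ⟨j', rfl⟩ : ∃ j', j = a + j' := ⟨j - a, by omega⟩
      rcases le_or_gt a i with hai | hai
      · obtain ⟨i', rfl⟩ : ∃ i', i = a + i' := ⟨i - a, by omega⟩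
        have h := s2 i' j' (by omega) (by omega)
        rw [shift_shift] at h
        have e : a + j' - (a + i') = j' - i' := by omega
        rw [e]
        exact h
      · obtain ⟨a', ha'⟩ : ∃ a', a = i + a' := ⟨a - i, by omega⟩
        have e : a + j' - i = a' + j' := by omega
        rw [e]
        have h := (g1 (shift i u) (a' + j')).2
        have h3 := g2 (shift i u) a' j'
        rw [shift_shift, ← ha'] at h3
        have h4 := g2 u i a'
        rw [← ha'] at h4
        have h5 := q1 i hai
        have h6 := p2 j' (by omega) (by omega)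
        have h7 := le_abs_self (Hn ε (shift i u) (a' + j'))
        linarith
  · intro j hj0 hj
    rcases le_or_gt j a with hja | hja
    · exact p1 j hj0 hja
    · obtain ⟨j', rfl⟩ : ∃ j', j = a + j' := ⟨j - a, by omega⟩
      have h3 := g2 u a j'
      have h4 := p2 j' (by omega) (by omega)
      linarith
  · intro j hj
    rcases Nat.eq_zero_or_pos b with rfl | hb
    · exact q1 j (by omega)
    · have h3 := g2 u a b
      have h4 := p2 b hb le_rfl
      rcases lt_or_ge j a with hja | hja
      · have h5 := q1 j hja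
        linarith
      · obtain ⟨j', rfl⟩ : ∃ j', j = a + j' := ⟨j - a, by omega⟩
        have h5 := g2 u a j'
        have h6 := q2 j' (by omega)
        linarith

theorem super (hB : S_BLOCK) (hg : S_HG) (hm : S_HM) {ε c : ℝ} (hε : 0 < ε) (hc : 0 < c)
    (a b : ℕ) : (Pm m).real (HBr m ε c a) * (Pm m).real (HBr m ε c b) ≤
      (Pm m).real (HBr m ε c (a + b)) := by
  obtain ⟨-, -, -, -, ⟨m1, l1⟩, -⟩ := hm m ε c 0 a
  obtain ⟨-, -, -, -, ⟨m2, l2⟩, -⟩ := hm m ε c 0 b
  rw [← block2 hB m1 l1 m2 l2]
  exact measureReal_mono fun u hu => concat hg hε hc hu.1 hu.2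

theorem zero_eq {ε c : ℝ} : (Pm m).real (HBr m ε c 0) = 1 := by
  have e : HBr m ε c 0 = Set.univ := by
    ext u
    simp only [Set.mem_univ, iff_true]
    exact ⟨fun i j hij hj => by omega, fun j h0 hj => by omega, fun j hj => by omega⟩
  rw [e]
  simp

theorem pow_le (hB : S_BLOCK) (hg : S_HG) (hm : S_HM) {ε c : ℝ} (hε : 0 < ε) (hc : 0 < c)
    (l k : ℕ) : (Pm m).real (HBr m ε c l) ^ k ≤ (Pm m).real (HBr m ε c (k * l)) := by
  induction k with
  | zero => rw [pow_zero, zero_mul, zero_eq]
  | succ k ih =>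
    rw [pow_succ, add_mul, one_mul]
    refine le_trans ?_ (super hB hg hm hε hc (k * l) l)
    exact mul_le_mul_of_nonneg_right ih measureReal_nonneg

/-- **[HLO]** -/
theorem s_hlo (hB : S_BLOCK) (hg : S_HG) (hm : S_HM) : S_HLO := by
  intro m ε c l k r hε hc
  have h1 := pow_le (m := m) hB hg hm hε hc l k
  have h2 := pow_le (m := m) hB hg hm hε hc 1 r
  rw [mul_one] at h2
  have h3 := super (m := m) hB hg hm hε hc (k * l) r
  refine le_trans (mul_le_mul h1 h2 (pow_nonneg measureReal_nonneg _) measureReal_nonneg)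
    (h3.trans ?_)
  exact measureReal_mono fun u hu => hu.1

end Pool.Agent.H97.HS
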