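import Pool.Agent.H948.HS.Stm

/-!
# Sub-ballisticity from the pieces
-/

set_option autoImplicit false

namespace Pool.Agent.H948.HS

open MeasureTheory ProbabilityTheory Set Filter Metric
open scoped ENNReal NNReal Topology RealInnerProductSpace

theorem s_sub (hV : S_VSTAR) (hLow : S_LOW) (hU : S_UP) (hL : S_LIN) (hb : S_BRL) (hM : S_LAM) :
    S_SUB := by
  intro m c δ hm hc0 hc1 hδ
  by_contra hcon
  have hball : ∃ v, Ball m c v := by
    refine hV m c δ hc0 hc1 hδ fun θ hθ0 hθ1 n0 => ?_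
    by_contra hno
    push Not at hno
    exact hcon ⟨θ, hθ0, hθ1, n0, hno⟩
  obtain ⟨v, hv⟩ := hball
  obtain ⟨C2, c3, hC2, hc3, hlow⟩ := hLow m c v hc0 hc1 hv
  obtain ⟨q, q0, hq0, hup⟩ := hU m c v C2 hc0 hc1 hv.1 hv.2.1 hC2
  obtain ⟨hl0, hl1, -⟩ := hM m c hc0 hc1
  obtain ⟨-, -, -, -, hBl, -⟩ := hb m c hc0 hc1
  obtain ⟨K, hK⟩ := exists_nat_gt (1 / (c3 * q0))
  have hKc : 1 < (K : ℝ) * (c3 * q0) := by
    rwa [div_lt_iff₀ (by positivity)] at hK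
  obtain ⟨ζ', hζ', F, hF, hF1, hF2⟩ := hL.2.2 m K ((1 - c) / 16) hm (by linarith)
  have hv0 : 0 < v := hv.1
  obtain ⟨n, hn, hnice⟩ := hlow (v * ζ' / 2) 1 (by positivity)
  have h := hup (v * ζ' / 2) F n (by positivity) hn hF1 (fun f hf f' hf' hne => by
    have := hF2 f hf f' hf' hne
    have : v * ζ' < v * ‖f - f'‖ := mul_lt_mul_of_pos_left this hv0
    linarith)
  rw [hF] at h
  have h2 : B m c (n + 2 * q) ≤ lam m c ^ n :=
    (hBl _).trans (pow_le_pow_of_le_one hl0.le hl1 (by omega))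
  have hpos : 0 < lam m c ^ n := pow_pos hl0 n
  have h3 : (K : ℝ) * (c3 * q0) * lam m c ^ n ≤ lam m c ^ n := by
    calc (K : ℝ) * (c3 * q0) * lam m c ^ n = K * (c3 * lam m c ^ n) * q0 := by ring
      _ ≤ K * (Pm m).real (Nice m c v C2 (v * ζ' / 2) n) * q0 := by
          gcongr
      _ ≤ _ := h.trans h2
  nlinarith [mul_lt_mul_of_pos_right hKc hpos]

theorem s_hlo1 (hH : S_HLIM) (hb : S_BRL) : S_HLO1 := by
  intro m c hm hc0 hc1
  obtain ⟨hp0, -, hpB, -⟩ := hb m c hc0 hc1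
  obtain ⟨ε0, hε0, h⟩ := hH m c 0 (pc m c / 2) 1 hm hc0 hc1 (by positivity)
  refine ⟨ε0, pc m c / 2, hε0, by positivity, fun ε h1 h2 => ?_⟩
  have h3 := (h ε h1 h2).2.2
  have h4 := hpB 1
  rw [pow_one] at h4
  linarith

end Pool.Agent.H948.HS
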