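import Pool.Agent.H948.HS.Stm

set_option autoImplicit false

/-! The union bound over the patterns. -/

namespace Pool.Agent.H967.HSU

open MeasureTheory ProbabilityTheory Set Filter Metric
open scoped ENNReal NNReal Topology RealInnerProductSpace
open Pool.Agent.H948.HS

/-- the extension of a function by zero -/
def ex {K τ : ℕ} (a : Fin K → Fin (τ + 1)) (k : ℕ) : ℕ := if h : k < K then (a ⟨k, h⟩ : ℕ) else 0

lemma ex_le {K τ : ℕ} (a : Fin K → Fin (τ + 1)) (k : ℕ) : ex a k ≤ τ := by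
  unfold ex
  split_ifs with h
  · exact Nat.lt_succ_iff.1 (a ⟨k, h⟩).2
  · exact Nat.zero_le _

/-- the conditions on a pattern -/
def Cd (l M K : ℕ) (s : ℕ) (C G : Finset ℕ) (α β : ℕ → ℕ) : Prop :=
  s < M ∧ C.Nonempty ∧ K ≤ 2 * G.card ∧ (∀ k ∈ C, k < K) ∧ (∀ k ∈ G, k ∈ C ∧ k + 1 ∈ C) ∧
    ∀ k ∈ C, α k ≤ (k * M + s) * l ∧ (k * M + s) * l + β k ≤ K * (M * l)

lemma lam_nonneg (m : ℕ) (c : ℝ) : 0 ≤ lam m c :=
  Real.iInf_nonneg fun _ => Real.rpow_nonneg measureReal_nonneg _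

lemma pat_congr {m : ℕ} {c v C2 ζ : ℝ} {L : ℕ} {T : ℕ → ℕ} {C G : Finset ℕ} {α β α' β' : ℕ → ℕ} {u : Om m}
    (hG : ∀ k ∈ G, k ∈ C ∧ k + 1 ∈ C) (h : ∀ k ∈ C, α k = α' k ∧ β k = β' k)
    (hu : u ∈ Pat m c v C2 ζ L T C G α β) : u ∈ Pat m c v C2 ζ L T C G α' β' := by
  obtain ⟨h1, h2, h3⟩ := hu
  refine ⟨h1, fun k hk => ?_, fun k hk => ?_⟩
  · rw [← (h k hk).1, ← (h k hk).2]
    exact h2 k hk
  · rw [← (h k (hG k hk).1).2, ← (h (k + 1) (hG k hk).2).1]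
    exact h3 k hk

theorem s_uni (hpb : S_PB) : S_UNI := by
  classical
  intro m c v C2 ζ l M K τ A y D κ hc hc1 hl hM hτ hA hWb hy hy1 hN hD hκ hκ1 hZ
  have : IsProbabilityMeasure (Pm m) := by infer_instance
  obtain ⟨R, hR⟩ : ∃ R : ℝ, R = lam m c ^ (K * (M * l)) / (lam m c ^ (2 * τ * K) * κ ^ (K * (M * l))) := ⟨_, rfl⟩
  have hl0 := lam_nonneg m c
  have hR0 : 0 ≤ R := by rw [hR]; positivity
  rw [← hR]
  let Ev : ℕ × Finset ℕ × Finset ℕ × (Fin K → Fin (τ + 1)) × (Fin K → Fin (τ + 1)) → Set (Om m) := fun i =>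
    if Cd l M K i.1 i.2.1 i.2.2.1 (ex i.2.2.2.1) (ex i.2.2.2.2) then
      Pat m c v C2 ζ (K * (M * l)) (fun k => (k * M + i.1) * l) i.2.1 i.2.2.1 (ex i.2.2.2.1) (ex i.2.2.2.2) else ∅
  let P : Finset (ℕ × Finset ℕ × Finset ℕ × (Fin K → Fin (τ + 1)) × (Fin K → Fin (τ + 1))) :=
    Finset.range M ×ˢ (Finset.range K).powerset ×ˢ (Finset.range K).powerset ×ˢ Finset.univ ×ˢ Finset.univ
  have hsub : {u | ∃ s < M, ∃ (C G : Finset ℕ) (α β : ℕ → ℕ), C.Nonempty ∧ K ≤ 2 * G.card ∧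
      (∀ k ∈ C, k < K) ∧ (∀ k ∈ G, k ∈ C ∧ k + 1 ∈ C) ∧ (∀ k, α k ≤ τ ∧ β k ≤ τ) ∧
      (∀ k ∈ C, α k ≤ (k * M + s) * l ∧ (k * M + s) * l + β k ≤ K * (M * l)) ∧
      u ∈ Pat m c v C2 ζ (K * (M * l)) (fun k => (k * M + s) * l) C G α β} ⊆ ⋃ i ∈ P, Ev i := by
    rintro u ⟨s, hs, C, G, α, β, h1, h2, h3, h4, h5, h6, h7⟩
    set a : Fin K → Fin (τ + 1) := fun k => ⟨α k, Nat.lt_succ_iff.2 (h5 k).1⟩ with ha
    set b : Fin K → Fin (τ + 1) := fun k => ⟨β k, Nat.lt_succ_iff.2 (h5 k).2⟩ with hb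
    have hab : ∀ k ∈ C, α k = ex a k ∧ β k = ex b k := by
      intro k hk
      unfold ex
      rw [dif_pos (h3 k hk), dif_pos (h3 k hk)]
      exact ⟨rfl, rfl⟩
    have hCd : Cd l M K s C G (ex a) (ex b) := by
      refine ⟨hs, h1, h2, h3, h4, fun k hk => ?_⟩
      rw [← (hab k hk).1, ← (hab k hk).2]
      exact h6 k hk
    have hmem : (s, C, G, a, b) ∈ P := by
      simp only [P, Finset.mem_product, Finset.mem_range, Finset.mem_powerset, Finset.mem_univ, and_true]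
      refine ⟨hs, fun k hk => Finset.mem_range.2 (h3 k hk), fun k hk => Finset.mem_range.2 (h3 k (h4 k hk).1)⟩
    refine mem_iUnion₂.2 ⟨(s, C, G, a, b), hmem, ?_⟩
    show u ∈ if Cd l M K s C G (ex a) (ex b) then _ else _
    rw [if_pos hCd]
    exact pat_congr h4 hab h7
  have hone : ∀ i ∈ P, (Pm m).real (Ev i) ≤ D ^ 2 * A ^ K * y ^ K * R := by
    rintro ⟨s, C, G, a, b⟩ -
    show (Pm m).real (if Cd l M K s C G (ex a) (ex b) then
      Pat m c v C2 ζ (K * (M * l)) (fun k => (k * M + s) * l) C G (ex a) (ex b) else ∅) ≤ _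
    split_ifs with hCd
    · obtain ⟨h1, h2, h3, h4, h5, h6⟩ := hCd
      have h7 := hpb m c v C2 ζ l M K s τ C G (ex a) (ex b) A (y ^ 2) D κ hc hc1 hl h1 hτ h2 h4 h5
        (fun k => ⟨ex_le a k, ex_le b k⟩) h6 hA hWb (by positivity) (pow_le_one₀ hy.le hy1) hN hD hκ hκ1 hZ
      rw [← hR] at h7
      refine h7.trans ?_
      refine mul_le_mul_of_nonneg_right (mul_le_mul_of_nonneg_left ?_ (by positivity)) hR0
      rw [← pow_mul]
      exact pow_le_pow_of_le_one hy.le hy1 h3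
    · rw [measureReal_empty]
      positivity
  have hcard : (P.card : ℝ) = M * (4 * ((τ : ℝ) + 1) ^ 2) ^ K := by
    simp only [P, Finset.card_product, Finset.card_range, Finset.card_powerset, Finset.card_univ, Fintype.card_fun,
      Fintype.card_fin]
    push_cast
    rw [mul_pow, ← pow_mul, mul_comm 2 K, pow_mul, show (4 : ℝ) = 2 * 2 by norm_num, mul_pow]
    ring
  calc (Pm m).real _ ≤ (Pm m).real (⋃ i ∈ P, Ev i) := measureReal_mono hsub (measure_ne_top _ _)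
    _ ≤ ∑ i ∈ P, (Pm m).real (Ev i) := measureReal_biUnion_finset_le P Ev
    _ ≤ ∑ i ∈ P, D ^ 2 * A ^ K * y ^ K * R := Finset.sum_le_sum hone
    _ = M * (4 * ((τ : ℝ) + 1) ^ 2) ^ K * (D ^ 2 * A ^ K * y ^ K * R) := by
        rw [Finset.sum_const, nsmul_eq_mul, hcard]

end Pool.Agent.H967.HSU
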