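import Pool.Agent.H948.HS.Base

/-!
# The statements of the project, with complete paper proofs

`d = m + 1 ≥ 2` is the dimension, `0 < c < 1`. `P` is `Pm m` (independent uniform steps), `λ = lam`.
Everything about the Euclidean walk is expressed by `S u i j` (displacement), `ht u i j` (height).
Blocks: the event (the steps `t, …, t + n - 1` form an element of `A`) is `shift t u ∈ A` with
`Loc n A`.
-/

set_option autoImplicit false

namespace Pool.Agent.H948.HS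

open MeasureTheory ProbabilityTheory Set Filter Metric
open scoped ENNReal NNReal Topology RealInnerProductSpace

/-! ## Independence, rotations, the sphere -/

/-- **[BLOCK]** Independence and stationarity: disjoint blocks.

Proof. `shift t` preserves `P` (`infinitePi` of equal measures, injective reindexing), and the events
`{shift (t i) u ∈ A i}` depend on disjoint sets of coordinates (see
`Pool/Agent/H948/SF/PBlock.lean` for the independence of functions of disjoint blocks of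
coordinates of an `infinitePi`; the same proof works). -/
def S_BLOCK : Prop :=
  ∀ (m k : ℕ) (t n : ℕ → ℕ) (A : ℕ → Set (Om m)),
    (∀ i < k, MeasurableSet (A i) ∧ Loc (n i) (A i)) →
    (∀ i, i + 1 < k → t i + n i ≤ t (i + 1)) →
    (Pm m).real {u | ∀ i < k, shift (t i) u ∈ A i} = ∏ i ∈ Finset.range k, (Pm m).real (A i)

/-- **[ROT]** Invariance under rotations.

Proof. `sig m` is invariant under `rot R`: `toSphere_apply'` gives the mass of a set as `dim` times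
the volume of the cone over it, and linear isometries preserve the volume. Then
`Measure.infinitePi_map_pi`. -/
def S_ROT : Prop :=
  ∀ (m : ℕ) (R : E m ≃ₗᵢ[ℝ] E m) (A : Set (Om m)), MeasurableSet A →
    (Pm m).real {u | rotO R u ∈ A} = (Pm m).real A

/-- **[SIG]** Caps have positive measure, hyperplane sections have measure zero.

Proof. (1) The cap is open and non-empty (it contains `f`), `toSphere` is positive on open sets
(`toSphere.instIsOpenPosMeasure`). (2) `dim ≥ 2`. The cone over the set is contained in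
`{y | Q y = 0}` with `Q y = ⟪w, y⟫ ^ 2 - t ^ 2 ‖y‖ ^ 2`. There is a unit vector `e` with `Q e ≠ 0`
(`e = w / ‖w‖` if `t = 0`; a unit vector orthogonal to `w` if `t ≠ 0`). Every line parallel to `e`
meets `{Q = 0}` in at most two points (a polynomial of degree two with leading coefficient `Q e`),
so the volume of `{Q = 0}` is zero (Fubini), or use that the zero set of a non-zero polynomial
(analytic function) is a null set. -/
def S_SIG : Prop :=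
  (∀ (m : ℕ) (f : E m) (ρ : ℝ), ‖f‖ = 1 → 0 < ρ → 0 < (sig m).real {x | 1 - ρ < ⟪f, (x : E m)⟫}) ∧
  (∀ (m : ℕ) (w : E m) (t : ℝ), 1 ≤ m → w ≠ 0 → sig m {x | ⟪w, (x : E m)⟫ = t} = 0)

/-- **[LIN]** (1) Every unit vector is the image of `e0` under a linear isometry (for instance the
reflection in the hyperplane orthogonal to `e0 - f`). (2) Finite nets of the sphere: compactness;
if `‖x / ‖x‖ - f‖ ≤ η'` then `⟪f, x⟫ ≥ (1 - η' ^ 2 / 2) ‖x‖`. (3) `m ≥ 1`: `K` unit vectors in a cap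
around `e0`: `f_k = cos (k s) e_0 + sin (k s) e_1`, `k < K`, with `s > 0` small; different ones have
positive distance, take `ζ` smaller than the least distance. -/
def S_LIN : Prop :=
  (∀ (m : ℕ) (f : E m), ‖f‖ = 1 → ∃ R : E m ≃ₗᵢ[ℝ] E m, R (e0 m) = f) ∧
  (∀ (m : ℕ) (η : ℝ), 0 < η → ∃ F : Finset (E m), (∀ f ∈ F, ‖f‖ = 1) ∧
    ∀ x : E m, ∃ f ∈ F, (1 - η) * ‖x‖ ≤ ⟪f, x⟫) ∧
  (∀ (m K : ℕ) (ρ : ℝ), 1 ≤ m → 0 < ρ → ∃ ζ : ℝ, 0 < ζ ∧ ∃ F : Finset (E m), F.card = K ∧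
    (∀ f ∈ F, ‖f‖ = 1 ∧ 1 - ρ ≤ ⟪f, e0 m⟫) ∧ ∀ f ∈ F, ∀ f' ∈ F, f ≠ f' → ζ < ‖f - f'‖)

/-- **[NULL]** `‖S u i j‖` has no atom in `(0, 1)`. Uses `S_BLOCK`, `S_SIG`.

Proof. If `j = i + 1` the norm is `1 ≠ c`. If `j ≥ i + 2` let `w = S u i (j - 1)` and `x = u (j - 1)`,
independent of `w`, uniform. `‖w + x‖ ^ 2 = ‖w‖ ^ 2 + 1 + 2 ⟪w, x⟫`, so for `w ≠ 0` the event is
`⟪w, x⟫ = t` with `t = (c ^ 2 - ‖w‖ ^ 2 - 1) / 2`, of `sig`-measure zero (`S_SIG`), and for `w = 0` the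
norm is `1 ≠ c`. Fubini: `P` is the law of (first `j - 1` steps, step `j - 1`) on the relevant
coordinates (for instance `indepFun` of coordinate `j - 1` and `S u i (j - 1)`, from
`iIndepFun_infinitePi`, and `IndepFun` as product law). -/
def S_NULL : Prop :=
  ∀ (m : ℕ) (c : ℝ) (i j : ℕ), 1 ≤ m → 0 < c → c < 1 → i < j → Pm m {u | ‖S u i j‖ = c} = 0

/-! ## Connective constant and bridges -/

/-- **[LAM]** The connective constant. Uses `S_BLOCK`, `S_SIG`.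

Proof. `Saw (a + b) ⊆ {u ∈ Saw a, shift a u ∈ Saw b}`, so `Z (a + b) ≤ Z a * Z b` (`S_BLOCK` with two
blocks). If all steps `k < n` have height `> c` the walk is self-avoiding, so `Z n ≥ (pc m c) ^ n > 0`
(`S_BLOCK` with `n` blocks of length one; `pc > 0` by `S_SIG` with `f = e0`, `ρ = 1 - c`). Then
`λ = inf_n (Z (n + 1)) ^ (1 / (n + 1)) ≥ pc > 0`, `λ ^ n ≤ Z n`, `λ ≤ Z 1 = 1`. For `ρ > λ` there is
`k ≥ 1` with `Z k < ρ ^ k`; `Z (q k + r) ≤ (Z k) ^ q ≤ ρ ^ (k q)`, hence `Z n ≤ D ρ ^ n` with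
`D = max 1 (ρ ^ (- k))`. -/
def S_LAM : Prop :=
  ∀ (m : ℕ) (c : ℝ), 0 < c → c < 1 →
    0 < lam m c ∧ lam m c ≤ 1 ∧ (∀ n, 0 < Z m c n) ∧ (∀ n, lam m c ^ n ≤ Z m c n) ∧
    (∀ a b, Z m c (a + b) ≤ Z m c a * Z m c b) ∧
    ∀ ρ : ℝ, lam m c < ρ → ∃ D : ℝ, 1 ≤ D ∧ ∀ n, Z m c n ≤ D * ρ ^ n

/-- **[BRL]** Bridges. Uses `S_BLOCK`, `S_ROT`, `S_SIG`, `S_LIN`, `S_LAM`.

Proof. Supermultiplicativity: if `u ∈ Brd a` and `shift a u ∈ Brd b` then `u ∈ Brd (a + b)`: for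
`i ≤ a < j` one has `ht u i j = ht u i a + ht u a j > 0 + c`, and `‖S u i j‖ ≥ ht u i j`. Since
`B n ^ k ≤ B (k n) ≤ Z (k n) ≤ D ρ ^ (k n)` for all `ρ > λ`, `B n ≤ λ ^ n`. If all steps have height
`> c` the walk is a bridge: `pc ^ n ≤ B n`. Weak bridges: by `S_ROT` and `S_LIN` (1) the probability
of `Wb f n` does not depend on the unit vector `f` (`⟪R e0, R x⟫ = ⟪e0, x⟫`); a step of height `> c`,
a weak bridge in the direction `e0` (`ht_eq_inner`) and another step of height `> c` form a bridge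
of `n + 2` steps. -/
def S_BRL : Prop :=
  ∀ (m : ℕ) (c : ℝ), 0 < c → c < 1 →
    0 < pc m c ∧ pc m c ≤ 1 ∧ (∀ n, pc m c ^ n ≤ B m c n) ∧
    (∀ a b, B m c a * B m c b ≤ B m c (a + b)) ∧
    (∀ n, B m c n ≤ lam m c ^ n) ∧
    ∀ (f : E m) (n : ℕ), ‖f‖ = 1 → (Pm m).real (Wb m c f n) * pc m c ^ 2 ≤ B m c (n + 2)

/-! ## The Hammersley–Welsh argument -/

/-- **[HWREC]** One direction. Uses `S_BLOCK`.

Proof. Let `e = e_a` be the coordinate direction `a` (`⟪e, x⟫ = x a`), `h_j = ⟪e, S u 0 j⟫`,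
`T = ⌈s⌉₊` and `γ = 2 C`. Classes inside `Gs a s n`: `HSp n` (`h_j ≥ 0` for all `j ≤ n`), `HSm n`
(`h_j ≤ 0`), `HEp n` (`h_j ≤ h_n` for all `j`), `HEm n` (`h_j ≥ h_n`). All are measurable and local.
Claim: each has probability `≤ γ ρ ^ n`; induction on `n` (strong). Take `u ∈ HSp n`. If
`max_j h_j < s` then all oscillations of `h` are `< s` and `u ∈ Gs (a + 1) s n`. Otherwise let `t` be
the last time with `h_t = max`; `h_t ≥ s` and steps have length one, so `t ≥ T ≥ 1`; the first `t`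
steps are in `Wb e t` and `shift t u ∈ HSm (n - t)`. So
`P (HSp n) ≤ C ρ ^ n + ∑_{t = T}^n A β ^ t γ ρ ^ (n - t) ≤ (C + γ A ∑_{t ≥ T} (β / ρ) ^ t) ρ ^ n
≤ (C + γ / 2) ρ ^ n = γ ρ ^ n`. `HSm`: same with `-e`. `HEp n` (the end is the maximum): if the
oscillation is `< s` as before, otherwise let `t` be the first time with `h_t = min`; the steps from
`t` on form an element of `Wb e (n - t)`, `n - t ≥ T`, and the first `t` steps are in `HEm t`. `HEm`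
similarly. Finally let `u ∈ Gs a s n` and `t` a time with `h_t = min`: `u ∈ HEm t` and
`shift t u ∈ HSp (n - t)`: `P (Gs a s n) ≤ ∑_{t ≤ n} γ ^ 2 ρ ^ n`. -/
def S_HWREC : Prop :=
  ∀ (m : ℕ) (c : ℝ) (a : ℕ) (s β ρ A C : ℝ), 0 < c → a < m + 1 → 0 < s → 0 < β → β < ρ → 0 ≤ A →
    0 ≤ C → (∀ (f : E m) (n : ℕ), ‖f‖ = 1 → (Pm m).real (Wb m c f n) ≤ A * β ^ n) →
    A * (β / ρ) ^ ⌈s⌉₊ / (1 - β / ρ) ≤ 1 / 2 →
    (∀ n, (Pm m).real (Gs m c (a + 1) s n) ≤ C * ρ ^ n) →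
    ∀ n, (Pm m).real (Gs m c a s n) ≤ (n + 1) * (2 * C) ^ 2 * ρ ^ n

/-- **[PACK]** A self-avoiding walk with oscillation `< s` in all coordinates has a bounded number of
steps.

Proof. Its `n + 1` points `S u 0 j` have coordinates in `(-s, s)` and mutual distances `> c`. Divide
the cube into cells of side `c / (m + 1)` (distance of two points in one cell `≤ c`: the norm is at
most `∑ |coordinates| ≤ (m + 1) * (c / (m + 1))`); two points are never in the same cell, and the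
number of cells is bounded (pigeonhole with the map point ↦ floors of `(m + 1) x_r / c`). -/
def S_PACK : Prop :=
  ∀ (m : ℕ) (c s : ℝ), 0 < c → 0 < s → ∃ N0 : ℕ, ∀ n ≥ N0, Gs m c (m + 1) s n = ∅

/-- **[HW1]** The Hammersley–Welsh inequality. Uses `S_BLOCK`, `S_LAM`, `S_BRL`, `S_HWREC`,
`S_PACK`.

Proof. By `S_BRL`, `P (Wb f n) ≤ B (n + 2) / pc ^ 2 ≤ A ρ0 ^ n` with `A = 1 / pc ^ 2` (`ρ0 ≤ 1`). Let
`ρ > ρ0` and `τ > 0`; choose `s` with `A (ρ0 / ρ) ^ ⌈s⌉₊ / (1 - ρ0 / ρ) ≤ 1 / 2` (then the same holds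
for larger `ρ`). `Gs (m + 1) s n` has probability `≤ C ρ ^ n` by `S_PACK` (probabilities are `≤ 1`,
and zero for `n ≥ N0`). Downward induction on `a ≤ m + 1` with `S_HWREC`: for some `C_a`,
`P (Gs a s n) ≤ C_a (ρ (1 + τ) ^ (m + 1 - a)) ^ n` (the factor `n + 1` is `≤ const (1 + τ) ^ n`).
`Gs 0 s n = Saw n`. So `λ ^ n ≤ Z n ≤ C (ρ (1 + τ) ^ (m + 1)) ^ n` for all `n`, hence
`λ ≤ ρ (1 + τ) ^ (m + 1)`; let `τ → 0` and `ρ → ρ0`. -/
def S_HW1 : Prop :=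
  ∀ (m : ℕ) (c ρ0 : ℝ), 0 < c → c < 1 → 0 < ρ0 → ρ0 ≤ 1 → (∀ n, 1 ≤ n → B m c n ≤ ρ0 ^ n) →
    lam m c ≤ ρ0

/-- **[HW]** Bridges have the same growth rate. Uses `S_LAM`, `S_BRL`, `S_HW1`.

Proof. Let `ρ < ρ1 < λ`. By `S_HW1` there is `k ≥ 1` with `B k > ρ1 ^ k`. For `n = q k + r`, `r < k`:
`B n ≥ (B k) ^ q (B 1) ^ r ≥ ρ1 ^ (k q) pc ^ k ≥ ρ ^ n` for large `n`. -/
def S_HW : Prop :=
  ∀ (m : ℕ) (c ρ : ℝ), 0 < c → c < 1 → 0 < ρ → ρ < lam m c → ∃ n0 : ℕ, ∀ n ≥ n0, ρ ^ n ≤ B m c n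

/-! ## Ballistic walks are impossible -/

/-- **[VSTAR]** The largest ballistic speed. Uses `S_BLOCK`, `S_ROT`, `S_LIN`, `S_LAM`.

Proof. Let `V` be the set of the `v ∈ [0, 1]` such that for every `θ ∈ (0, 1)` there are infinitely
many `n` with `P (Far (v n) n) > (θ λ) ^ n`. The hypothesis gives an element `δ > 0` of `V` (if
`δ > 1` then `Far (δ n) n = ∅` for `n ≥ 1`, as `‖S u 0 n‖ ≤ n`, contradiction). Let `v = sup V`. For
`ε > 0`, `v + ε ∉ V`, or `v + ε > 1` and `Far ((v + ε) n) n` is empty for `n ≥ 1`: the third property.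
Fourth: let `ε, θ, N, K0` be given; there is `v1 ∈ V`, `v1 > v - ε / 4` (`v1 > 0`). Let `η > 0` with
`(1 - η) v1 > v - ε / 2` and `F` a net (`S_LIN` (2)), `θ < θ' < 1`. `Far (v1 n) n` is contained in the
union over `f ∈ F` of `{u ∈ Saw n, ⟪f, S u 0 n⟫ ≥ (1 - η) v1 n}`, each of which has the probability of
`High ((1 - η) v1 n) n` (`S_ROT`, `S_LIN` (1)). So `P (High ((v - ε / 2) n) n) ≥ (θ' λ) ^ n / |F|` for
infinitely many `n` (case `v - ε/2 ≤ 0` included, monotone in the height). Put `K = n / N`; then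
`n = K N + r`, `r < N`, `Saw n ⊆ Saw (K N)` and `ht u 0 (K N) ≥ ht u 0 n - N ≥ (v - ε) K N` for large
`n` (if `(v - ε) ≤ 0`, note `(v - ε/2) n - N ≥ (v - ε) n ≥ ...`; treat signs with care, e.g.
`(v - ε/2) n - N ≥ (v - ε) K N` follows from `(ε / 2) n ≥ N + |v - ε| N`). Finally
`(θ' λ) ^ n / |F| ≥ (θ λ) ^ (K N)` for large `n`. -/
def S_VSTAR : Prop :=
  ∀ (m : ℕ) (c δ : ℝ), 0 < c → c < 1 → 0 < δ →
    (∀ θ : ℝ, 0 < θ → θ < 1 → ∀ n0 : ℕ, ∃ n ≥ n0,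
      (θ * lam m c) ^ n < (Pm m).real (Far m c (δ * n) n)) →
    ∃ v, Ball m c v

/-- **[STR]** Straightness at one scale. Uses `S_BLOCK`, `S_LAM`.

Proof. Let `ζ ≤ 1` w.l.o.g. Let `ζ' = ζ ^ 2 / 8`, so that `‖D - v l e0‖ ≤ ζ l` whenever
`⟪e0, D⟫ ≥ (v - ζ') l` and `‖D‖ ≤ (v + ζ') l` (`‖D - v l e0‖² = ‖D‖² - 2 v l ⟪e0, D⟫ + v² l² ≤
(4 v ζ' + ζ'²) l² ≤ 5 ζ' l²`). Choose `ζ1 ∈ (0, ζ')`, `b1 > 0`, `ε > 0` so small that
`b1 + (ζ1 + ε + b1 (1 + v + ζ1)) / ζ' ≤ b`. From the third property of `Ball` with `ζ1` get `θ1`,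
`n1`: `P (Far ((v + ζ1) l) l) ≤ (θ1 λ) ^ l` for `l ≥ n1`. Take `l ≥ n1` so large that
`Z l ≤ (λ / θ2) ^ l` with `2 ^ (1 / l) θ1 ^ b1 / θ2 < 1` (possible by `S_LAM`: fix `θ2 < 1` with
`θ1 ^ b1 / θ2 < 1` and use `Z l ≤ D ρ ^ l` with `λ < ρ < λ / θ2`). Let `u` be in the event, `k` blocks
of length `l` with displacements `D_i`. Call `i` fast if `‖D_i‖ > (v + ζ1) l`. If at most `b1 k`
blocks are fast: `∑_i ((v + ζ1) l - ⟪e0, D_i⟫) ≤ (ζ1 + ε) k l`, the terms of the blocks which are not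
fast are `≥ 0`, those of the fast ones `≥ - l`, so the terms of the not fast blocks have sum
`≤ (ζ1 + ε + b1) k l`, and at most `(ζ1 + ε + b1) k / ζ'` not fast blocks have
`⟪e0, D_i⟫ < (v - ζ') l`. Then the number of bad blocks is `≤ b k`, contradiction. So more than
`b1 k` blocks are fast. The probability that all blocks are in `Saw l` and more than `b1 k` are fast
is, by a union over the set of the fast blocks and `S_BLOCK`, at most
`2 ^ k W ^ j (Z l) ^ (k - j)` with `j = ⌈b1 k⌉`, `W = P (Far ((v + ζ1) l) l) ≤ Z l`, and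
`W ≤ θ1 ^ l λ ^ l ≤ θ1 ^ l Z l`: so `≤ 2 ^ k θ1 ^ (l b1 k) (λ / θ2) ^ (l k)`. -/
def S_STR : Prop :=
  ∀ (m : ℕ) (c v ζ b : ℝ), 0 < c → c < 1 → Ball m c v → 0 < ζ → 0 < b →
    ∃ L0 : ℕ, 1 ≤ L0 ∧ ∀ l ≥ L0, ∃ ε θ : ℝ, 0 < ε ∧ 0 < θ ∧ θ < 1 ∧ ∃ k0 : ℕ, ∀ k ≥ k0,
      (Pm m).real {u | u ∈ High m c ((v - ε) * ((k * l : ℕ) : ℝ)) (k * l) ∧
        b * k < (({i : ℕ | i < k ∧ bad v ζ l u i}.ncard : ℕ) : ℝ)} ≤ (θ * lam m c) ^ (k * l)

/-- **[CONE]** Few bad blocks imply many cone times (deterministic).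

Proof. Let `η = v / 8` and `Bad` the set of the bad `i < K` (threshold `v / 4`). Call `j < K` good if
`#(Bad ∩ [j, j + r)) ≤ η r` for all `r ≥ 1` with `j + r ≤ K`, and `#(Bad ∩ [j - r, j)) ≤ η r` for all
`1 ≤ r ≤ j`. (i) A good `j` is a cone time: let `t ≥ j l`, `r` the number of full blocks between,
`t = (j + r) l + t'`, `t' < l` (`t ≤ K l`). The good blocks contribute `≤ (v / 4) l` each to
`‖S u 0 t - S u 0 (j l) - v (t - j l) e0‖`, the bad ones at most `2 l` each (`‖D‖ ≤ l`, `v ≤ 1`), the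
rest `≤ 2 t' ≤ 2 l`: total `≤ (v / 4) r l + 2 η r l + 2 l = (v / 2) r l + 2 l`. Similarly backwards.
(ii) At most `|Bad| / η` indices violate the first condition: choose the smallest violating `j1`
and `r1` with `#(Bad ∩ [j1, j1 + r1)) > η r1`, then the smallest violating `j2 ≥ j1 + r1`, …; the
intervals `[j_i, j_i + r_i)` are disjoint and cover all violating indices, so the number of these is
`≤ ∑ r_i < ∑ #(Bad ∩ [j_i, j_i + r_i)) / η ≤ |Bad| / η` (induction on `K`, or strong induction from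
the right). The same for the second condition (reflection). Total `≤ 16 / v * |Bad|`. -/
def S_CONE : Prop :=
  ∀ (m : ℕ) (v : ℝ) (l : ℕ), 0 < v → v ≤ 1 → 1 ≤ l → ∀ (u : Om m) (K : ℕ),
    (({j : ℕ | j < K ∧ ¬ Cone v (2 * l) u (K * l) (j * l)}.ncard : ℕ) : ℝ) ≤
      16 / v * (({i : ℕ | i < K ∧ bad v (v / 4) l u i}.ncard : ℕ) : ℝ)

/-- The pattern events: `T k` are the cone times, `k ∈ C`; `T k - α k` is a time of maximal height
among the times `≤ T k`; `T k + β k` is a time of minimal height among the times `≥ T k`; the pieces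
from `T k + β k` to `T (k + 1) - α (k + 1)` are nice for `k ∈ G`. -/
def Pat (m : ℕ) (c v C2 ζ : ℝ) (L : ℕ) (T : ℕ → ℕ) (C G : Finset ℕ) (α β : ℕ → ℕ) :
    Set (Om m) :=
  {u | u ∈ Saw m c L ∧
    (∀ k ∈ C, (∀ t ≤ T k, ht u 0 t ≤ ht u 0 (T k - α k)) ∧
      ∀ t, T k ≤ t → t ≤ L → ht u 0 (T k + β k) ≤ ht u 0 t) ∧
    ∀ k ∈ G, shift (T k + β k) u ∈
      Nice m c v C2 ζ (T (k + 1) - α (k + 1) - (T k + β k))}

/-- **[PAT]** The pattern of a walk with many cone times (deterministic).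

Proof. Let `k ∈ C`, `t ≤ T k`. `Cone` gives
`ht u 0 (T k) - ht u 0 t ≥ v (T k - t) - (v / 2) (T k - t) - 2 l = (v / 2) (T k - t) - 2 l`, which is
positive if `T k - t > τ` (as `4 l ≤ v τ`). So a time of maximal height among the `t ≤ T k` is
`≥ T k - τ`: this defines `α k ≤ τ`. Similarly `β k ≤ τ`. Let `k ∈ G`, `a = T k + β k`,
`b = T (k + 1) - α (k + 1)`, `a < b` since `2 τ < M l`. `shift a u ∈ Nice .. (b - a)`: self-avoiding;
for `a ≤ t ≤ b`: `ht u 0 a ≤ ht u 0 t` since `t ≥ T k`, and `ht u 0 t ≤ ht u 0 b` since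
`t ≤ T (k + 1)`; `S u a t - v (t - a) e0` is the difference of
`S u 0 t - S u 0 (T k) - v (t - T k) e0` and `S u 0 a - S u 0 (T k) - v (a - T k) e0`, so its norm is
`≤ (v / 2) (t - T k) + 2 l + (v / 2) τ + 2 l ≤ (v / 2) (t - a) + τ + 4 l`; similarly for
`S u t b`; finally `S u a b - v (b - a) e0` differs from `S u (T k) (T (k + 1)) - v N e0` (`N = M l`) by
at most `2 * 2 τ`, so its norm is `≤ (ζ / 4) N + 4 τ ≤ ζ (N - 2 τ) ≤ ζ (b - a)`. -/
def S_PAT : Prop :=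
  ∀ (m : ℕ) (c v ζ : ℝ) (l M K s τ : ℕ) (u : Om m) (C G : Finset ℕ), 0 < c → 0 < v → v ≤ 1 →
    0 < ζ → 1 ≤ l → s < M → 2 * τ < M * l → 4 * (l : ℝ) ≤ v * τ →
    ζ / 4 * ((M * l : ℕ) : ℝ) + 4 * τ ≤ ζ * (((M * l : ℕ) : ℝ) - 2 * τ) →
    u ∈ Saw m c (K * (M * l)) →
    (∀ k ∈ C, k < K ∧ Cone v (2 * l) u (K * (M * l)) ((k * M + s) * l)) →
    (∀ k ∈ G, k ∈ C ∧ k + 1 ∈ C ∧
      ‖S u ((k * M + s) * l) (((k + 1) * M + s) * l) - (v * ((M * l : ℕ) : ℝ)) • e0 m‖ ≤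
        ζ / 4 * ((M * l : ℕ) : ℝ)) →
    ∃ α β : ℕ → ℕ, (∀ k, α k ≤ τ ∧ β k ≤ τ) ∧
      (∀ k ∈ C, α k ≤ (k * M + s) * l ∧ (k * M + s) * l + β k ≤ K * (M * l)) ∧
      u ∈ Pat m c v (4 * l + τ) ζ (K * (M * l)) (fun k => (k * M + s) * l) C G α β

/-- **[PB]** The probability of a pattern. Uses `S_BLOCK`, `S_LAM`.

Proof. Let `k_1 < … < k_r` be the elements of `C`, `r ≥ 1`, `L = K N`, `N = M l`. On the event `Pat`:
the steps `[0, T_{k_1} - α)` form an element of `Saw`, also the steps `[T_{k_r} + β, L)`; for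
consecutive `k < k'` in `C` the steps `[T_k + β_k, T_{k'} - α_{k'})` form a weak bridge in the
direction `e0` (a time `t` in this interval is `≥ T_k`, so of height at least that of `T_k + β_k`, and
`≤ T_{k'}`, so of height at most that of `T_{k'} - α_{k'}`), and if `k ∈ G` (then `k' = k + 1`) a nice
piece of length in `[N - 2 τ, N]`. The blocks are disjoint in this order (`2 τ < N`). By `S_BLOCK` the
probability is at most the product of `D (λ / κ) ^ n_0`, `D (λ / κ) ^ n_r`, `A λ ^ n_i` (`k_i ∉ G`),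
`x λ ^ n_i` (`k_i ∈ G`). The lengths satisfy
`∑ n_i = L - ∑_{k ∈ C} (α k + β k) ≥ L - 2 τ K ≥ 0` and `λ ≤ 1`, `κ ≤ 1`. -/
def S_PB : Prop :=
  ∀ (m : ℕ) (c v C2 ζ : ℝ) (l M K s τ : ℕ) (C G : Finset ℕ) (α β : ℕ → ℕ) (A x D κ : ℝ),
    0 < c → c < 1 → 1 ≤ l → s < M → 2 * τ < M * l → C.Nonempty → (∀ k ∈ C, k < K) →
    (∀ k ∈ G, k ∈ C ∧ k + 1 ∈ C) → (∀ k, α k ≤ τ ∧ β k ≤ τ) →
    (∀ k ∈ C, α k ≤ (k * M + s) * l ∧ (k * M + s) * l + β k ≤ K * (M * l)) →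
    1 ≤ A → (∀ n, (Pm m).real (Wb m c (e0 m) n) ≤ A * lam m c ^ n) →
    0 < x → x ≤ 1 → (∀ n, n ≤ M * l → M * l ≤ n + 2 * τ →
      (Pm m).real (Nice m c v C2 ζ n) ≤ x * lam m c ^ n) →
    1 ≤ D → 0 < κ → κ ≤ 1 → (∀ n, Z m c n ≤ D * (lam m c / κ) ^ n) →
    (Pm m).real (Pat m c v C2 ζ (K * (M * l)) (fun k => (k * M + s) * l) C G α β) ≤
      D ^ 2 * A ^ K * x ^ G.card * (lam m c ^ (K * (M * l)) /
        (lam m c ^ (2 * τ * K) * κ ^ (K * (M * l))))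

/-- **[TYP]** Typical walks have many cone times at mutual distance `N = M l` with straight blocks
between them (deterministic). Uses `S_CONE`.

Proof. By `S_CONE` (with `K M` blocks of length `l`) at most `(16 / v) (v / 256) K M = K M / 16` of the
indices `j < K M` are not cone indices. The indices `j` are `k M + s` with `k < K`, `s < M`, so for some
`s < M` at most `K / 16` of the `k < K` have `k M + s` not a cone index. Let `C` be the set of the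
other `k < K`, and `G` the set of the `k < K - 1` with `k ∈ C`, `k + 1 ∈ C` and
`¬ bad v (ζ / 4) (M l) (shift (s l) u) k` (the block `k` of length `M l` of the shifted walk is the
block from `(k M + s) l` to `((k + 1) M + s) l`, `S_shift`). `|G| ≥ (K - 1) - K / 16 - K / 16 -
(K - 1) / 16 ≥ K / 2` for `K ≥ 64`. -/
def S_TYP : Prop :=
  ∀ (m : ℕ) (v ζ : ℝ) (l M K : ℕ) (u : Om m), 0 < v → v ≤ 1 → 0 < ζ → 1 ≤ l → 1 ≤ M → 64 ≤ K →
    (({i : ℕ | i < K * M ∧ bad v (v / 4) l u i}.ncard : ℕ) : ℝ) ≤ v / 256 * ((K * M : ℕ) : ℝ) →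
    (∀ s < M, (({i : ℕ | i < K - 1 ∧ bad v (ζ / 4) (M * l) (shift (s * l) u) i}.ncard : ℕ) : ℝ) ≤
      1 / 16 * ((K - 1 : ℕ) : ℝ)) →
    ∃ s < M, ∃ C G : Finset ℕ, C.Nonempty ∧ K ≤ 2 * G.card ∧
      (∀ k ∈ C, k < K ∧ Cone v (2 * l) u (K * (M * l)) ((k * M + s) * l)) ∧
      (∀ k ∈ G, k ∈ C ∧ k + 1 ∈ C ∧
        ‖S u ((k * M + s) * l) (((k + 1) * M + s) * l) - (v * ((M * l : ℕ) : ℝ)) • e0 m‖ ≤
          ζ / 4 * ((M * l : ℕ) : ℝ))

/-- **[UNI]** Union bound over the patterns. Uses `S_PB`.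

Proof. `Pat .. α β` depends on `α, β` only through their values at the `k < K` (for `k ∈ G` also
`k + 1 ∈ C`, so `k + 1 < K`), so one may assume that `α, β` vanish outside `k < K`; the number of
`(s, C, G, α, β)` is then at most `M 2 ^ K 2 ^ K (τ + 1) ^ K (τ + 1) ^ K`. Each pattern has
probability at most the bound of `S_PB` with `x = y ^ 2`, and `x ^ |G| = y ^ (2 |G|) ≤ y ^ K`. (If the
side condition on `α, β` fails for the modified functions nothing is lost: they agree on `C`.) -/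
def S_UNI : Prop :=
  ∀ (m : ℕ) (c v C2 ζ : ℝ) (l M K τ : ℕ) (A y D κ : ℝ),
    0 < c → c < 1 → 1 ≤ l → 1 ≤ M → 2 * τ < M * l → 1 ≤ A →
    (∀ n, (Pm m).real (Wb m c (e0 m) n) ≤ A * lam m c ^ n) →
    0 < y → y ≤ 1 → (∀ n, n ≤ M * l → M * l ≤ n + 2 * τ →
      (Pm m).real (Nice m c v C2 ζ n) ≤ y ^ 2 * lam m c ^ n) →
    1 ≤ D → 0 < κ → κ ≤ 1 → (∀ n, Z m c n ≤ D * (lam m c / κ) ^ n) →
    (Pm m).real {u | ∃ s < M, ∃ (C G : Finset ℕ) (α β : ℕ → ℕ), C.Nonempty ∧ K ≤ 2 * G.card ∧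
      (∀ k ∈ C, k < K) ∧ (∀ k ∈ G, k ∈ C ∧ k + 1 ∈ C) ∧ (∀ k, α k ≤ τ ∧ β k ≤ τ) ∧
      (∀ k ∈ C, α k ≤ (k * M + s) * l ∧ (k * M + s) * l + β k ≤ K * (M * l)) ∧
      u ∈ Pat m c v C2 ζ (K * (M * l)) (fun k => (k * M + s) * l) C G α β} ≤
      M * (4 * ((τ : ℝ) + 1) ^ 2) ^ K * (D ^ 2 * A ^ K * y ^ K * (lam m c ^ (K * (M * l)) /
        (lam m c ^ (2 * τ * K) * κ ^ (K * (M * l)))))

/-- **[LOW]** If the walk is ballistic, nice pieces have probability at least `c3 λ ^ n` for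
infinitely many `n`, where `c3` does not depend on the precision `ζ`. Uses `S_BLOCK`, `S_LAM`,
`S_BRL`, `S_STR`, `S_TYP` (instead of the counting with `S_CONE` below), `S_PAT`, and `S_UNI` (instead
of the union bound below).

Proof. Let `l` be a length given by `S_STR` for `v / 4` and `b = v / 256` (constants `ε1, θ1`),
`τ = ⌈4 l / v⌉`, `C2 = 4 l + τ`, `A = 1 / pc ^ 2` (`P (Wb e0 n) ≤ B (n + 2) / pc ^ 2 ≤ A λ ^ n`),
`y = λ ^ (2 τ) / (8 e ^ 2 (τ + 1) ^ 2 A) ≤ 1`, `c3 = y ^ 2`. Let `ζ, n1` be given. By `S_STR` for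
`ζ / 4` and `b = 1 / 16` choose `M` large: `N = M l` is admissible there (constants `ε2, θ2`),
`N ≥ n1 + 2 τ + 1`, `2 τ < N`, `ζ / 4 N + 4 τ ≤ ζ (N - 2 τ)`. Suppose `P (Nice n) < c3 λ ^ n` for all
`n ∈ [N - 2 τ, N]`. Let `κ = e ^ (-1 / N)`, `D` from `S_LAM` for `ρ = λ / κ`, and `θ < 1` with
`θ > θ1, θ2` and `θ ≥ e ^ (-1 / N)`. Let `ε ≤ ε1, ε2 / 4`. By `Ball` there are arbitrarily large `K`
with `P (High ((v - ε) K N) (K N)) ≥ (θ λ) ^ (K N)`. Exceptional events: `E1` (among the `K M` blocks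
of length `l` more than `(v / 256) K M` are bad for `v / 4`): `≤ (θ1 λ) ^ (K N)`. For `s < M`, `E2 s`
(among the `K - 1` blocks of length `N` from the time `s l` on more than `(K - 1) / 16` are bad for
`ζ / 4`; the shifted walk has height `≥ (v - ε) K N - N ≥ (v - ε2) (K - 1) N` for large `K`): `≤
(θ2 λ) ^ ((K - 1) N)` (stationarity: `S_BLOCK` with one block). Outside these events: by `S_CONE` at most
`(16 / v) (v / 256) K M = K M / 16` of the indices `j < K M` are not cone times, so for some `s < M`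
at most `K / 16` of the `k < K` have `k M + s` not a cone time. Let `C` be the set of the other
`k`, and `G` the set of the `k < K - 1` with `k, k + 1 ∈ C` and the `N`-block from `(k M + s) l` on
straight (for `ζ / 4`): `|G| ≥ K - 1 - K / 16 - K / 16 - (K - 1) / 16 ≥ K / 2`. By `S_PAT`, `u` is in
a pattern event, which by `S_PB` (`x = y ^ 2`, so `x ^ |G| ≤ y ^ K` as `2 |G| ≥ K`) has probability
`≤ D ^ 2 A ^ K y ^ K λ ^ (K N) λ ^ (-2 τ K) e ^ K` (`κ ^ (K N) = e ^ (-K)`). The number of patterns is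
`≤ M 2 ^ K 2 ^ K (τ + 1) ^ (2 K)` (`Pat` depends on `α, β` only through their values at `k < K`; take
them zero elsewhere). So `(θ λ) ^ (K N) ≤ (θ1 λ) ^ (K N) + M (θ2 λ) ^ ((K - 1) N) +
M D ^ 2 (4 (τ + 1) ^ 2 A y λ ^ (-2 τ) e) ^ K λ ^ (K N)`. Divide by `(θ λ) ^ (K N)` and use
`θ ^ (-K N) ≤ e ^ K`: the last term becomes `≤ M D ^ 2 (1 / 2) ^ K`, and all terms on the right tend to
zero as `K → ∞`: contradiction. -/
def S_LOW : Prop :=
  ∀ (m : ℕ) (c v : ℝ), 0 < c → c < 1 → Ball m c v →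
    ∃ C2 c3 : ℝ, 0 < C2 ∧ 0 < c3 ∧ ∀ (ζ : ℝ) (n1 : ℕ), 0 < ζ → ∃ n ≥ n1,
      c3 * lam m c ^ n ≤ (Pm m).real (Nice m c v C2 ζ n)

/-- **[UP]** Rotated nice pieces with connectors are bridges. Uses `S_BLOCK`, `S_ROT`, `S_SIG`,
`S_LIN` (1).

Proof. `ρ = (1 - c) / 16`, `cap = {x | 1 - ρ < ⟪e0, x⟫}`, `q = ⌈2 (C2 + 1)⌉`,
`q0 = (sig cap) ^ (2 q)`. For a unit vector `f` with `⟪f, e0⟫ ≥ 1 - ρ` let `R e0 = f` and let `U_f` be
the event: the steps `[0, q)` are in `cap`, the steps `[q, q + n)` are `R` of a nice piece, the steps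
`[q + n, n + 2 q)` are in `cap`. Its probability is `P (Nice n) q0` (`S_BLOCK`, `S_ROT`). Facts: for
`x ∈ cap`, `⟪x, e0⟫ ≥ 1 - ρ ≥ 15 / 16`, and `‖f - x‖ ≤ ‖f - e0‖ + ‖e0 - x‖ ≤ 2 √(2 ρ)`, so
`⟪f, x⟫ = 1 - ‖f - x‖² / 2 ≥ 1 - 4 ρ > c`. With `g = R⁻¹ e0`, `⟪g, e0⟫ = ⟪e0, f⟫ ≥ 1 / 2`:
for a nice piece `w`, `⟪g, S w 0 j⟫ ≥ v j / 2 - (v / 2) j - C2 = - C2` and `⟪g, S w j n⟫ ≥ - C2`. (i)
Self-avoidance: for `i < j` both in `[q, q + n]` by the nice piece; otherwise there is a connector step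
between, each connector step contributes `≥ 1 - 4 ρ > c > 0` to `⟪f, S u i j⟫` and the part of the
piece contributes `⟪e0, S w i' j'⟫ ≥ 0` (it is an initial or a final part of the piece, or all of
it), so `‖S u i j‖ > c`. (ii) Heights: a point of the first connector has height `≥ 1 - ρ > c`; a
point of the piece has height `≥ q (1 - ρ) - C2 ≥ 1 > c` (`q (1 - ρ) ≥ C2 + 1`); points of the last
connector too. The end has height (end of the piece) `+ ≥ q (1 - ρ) ≥ C2 + 1`, and the points of the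
piece, and of the first connector, have height `≤` (end of the piece) `+ C2`. So `U_f ⊆ Brd (n + 2 q)`.
(iii) The `U_f`, `f ∈ F`, are disjoint: the displacement `D` of the steps `[q, q + n)` satisfies
`‖D - v n f‖ ≤ ζ n`, and if the same holds for `f' ≠ f` then `v n ‖f - f'‖ ≤ 2 ζ n`. -/
def S_UP : Prop :=
  ∀ (m : ℕ) (c v C2 : ℝ), 0 < c → c < 1 → 0 < v → v ≤ 1 → 0 < C2 →
    ∃ (q : ℕ) (q0 : ℝ), 0 < q0 ∧ ∀ (ζ : ℝ) (F : Finset (E m)) (n : ℕ), 0 < ζ → 1 ≤ n →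
      (∀ f ∈ F, ‖f‖ = 1 ∧ 1 - (1 - c) / 16 ≤ ⟪f, e0 m⟫) →
      (∀ f ∈ F, ∀ f' ∈ F, f ≠ f' → 2 * ζ < v * ‖f - f'‖) →
      F.card * (Pm m).real (Nice m c v C2 ζ n) * q0 ≤ B m c (n + 2 * q)

/-- **[SUB]** The Euclidean walk is sub-ballistic. Assembled by helper948 from `S_VSTAR`, `S_LOW`,
`S_UP`, `S_LIN`, `S_BRL`, `S_LAM`. -/
def S_SUB : Prop :=
  ∀ (m : ℕ) (c δ : ℝ), 1 ≤ m → 0 < c → c < 1 → 0 < δ →
    ∃ θ : ℝ, 0 < θ ∧ θ < 1 ∧ ∃ n0 : ℕ, ∀ n ≥ n0,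
      (Pm m).real (Far m c (δ * n) n) ≤ (θ * lam m c) ^ n

/-! ## The hyperbolic walk -/

/-- **[HG]** Geometry of the walk. `X` is a walk on the group `Pt` (product `act`), which acts by
isometries.

Proof. (1) `(X ε u n).2 > 0` (`cosh ε > |sinh ε x 0|`, as `|x 0| ≤ 1`). (2) `act` is associative,
`act (0, 1) = id`, so `X ε u (i + k) = act (X ε u i) (X ε (shift i u) k)` (induction on `k`), and
`hdist (act p q) (act p q') = hdist q q'` for `p.2 > 0` (the numerator and the denominator get the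
factor `p.2 ^ 2`). Hence `hdist (X i) (X j) = ε Dn (shift i u) (j - i)`. (3) `hdist` satisfies the
triangle inequality on points with positive second coordinate: by (2) and the inverse element one may
assume that the middle point is `o = (0, 1)`. With `p_0 = (‖b‖² + a² + 1) / (2 a)`,
`p' = (b / a, (‖b‖² + a² - 1) / (2 a))` (vector in `ℝ^m × ℝ`) one has `p_0² - ‖p'‖² = 1` and
`cosh (hdist p q) = p_0 q_0 - ⟪p', q'⟫ ≤ p_0 q_0 + ‖p'‖ ‖q'‖ = cosh (hdist p o + hdist o q)`, since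
`cosh (hdist p o) = p_0`, `sinh (hdist p o) = ‖p'‖`. (4) `|log (a / a')| ≤ hdist p q`:
`cosh (log (a / a')) = (a² + a'²) / (2 a a') ≤ 1 + ((a - a')² + …) / (2 a a')`. (5) `Dn ε u 1 = 1`:
`cosh (hdist o (inc ε x)) = cosh ε` (compute: with `δ = cosh ε - sinh ε x 0`, `a = 1 / δ`,
`‖b‖² = sinh² ε (1 - (x 0)²) / δ²`). -/
def S_HG : Prop :=
  ∀ (m : ℕ) (ε : ℝ), 0 < ε →
    (∀ (u : Om m) (n : ℕ), 0 < (X ε u n).2) ∧
    (∀ (u : Om m) (i j : ℕ), i ≤ j →
      hdist (X ε u i) (X ε u j) = ε * Dn ε (shift i u) (j - i)) ∧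
    (∀ (u : Om m) (n : ℕ), 0 ≤ Dn ε u n ∧ |Hn ε u n| ≤ Dn ε u n) ∧
    (∀ (u : Om m) (a b : ℕ), Hn ε u (a + b) = Hn ε u a + Hn ε (shift a u) b) ∧
    (∀ (u : Om m) (a b : ℕ), Dn ε u (a + b) ≤ Dn ε u a + Dn ε (shift a u) b) ∧
    (∀ u : Om m, Dn ε u 0 = 0 ∧ Dn ε u 1 = 1)

/-- **[HM]** Measurability and locality.

Proof. `u ↦ X ε u n` is measurable (induction; `act`, `inc ε` are measurable/continuous in the step)
and depends only on the first `n` steps; `arcosh` and `log` are measurable. -/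
def S_HM : Prop :=
  ∀ (m : ℕ) (ε c a : ℝ) (n : ℕ),
    Measurable (fun u : Om m => Dn ε u n) ∧ Measurable (fun u : Om m => Hn ε u n) ∧
    (∀ u v : Om m, (∀ i < n, u i = v i) → Dn ε u n = Dn ε v n ∧ Hn ε u n = Hn ε v n) ∧
    (MeasurableSet (HSaw m ε c n) ∧ Loc n (HSaw m ε c n)) ∧
    (MeasurableSet (HBr m ε c n) ∧ Loc n (HBr m ε c n)) ∧
    MeasurableSet (HFar m ε c a n) ∧ Loc n (HFar m ε c a n)

/-- **[HPT]** Pointwise limit as the step length tends to zero.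

Proof. `X ε u n = (b, a)` with `a = ∏_{k < n} a_k`, `a_k = 1 / (cosh ε - sinh ε x_k 0)`, and
`b = ∑_{k < n} (∏_{j < k} a_j) b_k`, `b_k = sinh ε a_k hor (x_k)`. As `ε → 0+`, `log a_k / ε → x_k 0` and
`a_k → 1`, `b_k / ε → hor (x_k)`, so `log a / ε → ht u 0 n`, `b / ε → hor (S u 0 n)` and
`(a - 1) / ε → ht u 0 n`. Hence `y = (‖b‖² + (a - 1)²) / (2 a)` satisfies `y / ε² → ‖S u 0 n‖² / 2`, and
`arcosh (1 + y) / ε → ‖S u 0 n‖` (with `w = arcosh (1 + y)`: `y = cosh w - 1 = 2 sinh² (w / 2)`, so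
`w = 2 arsinh √(y / 2)`). Induction on `n` is convenient: (i) `a_n → 1`, (ii) `log a_n / ε → ht`,
(iii) `b_n / ε → hor S`. -/
def S_HPT : Prop :=
  ∀ (m : ℕ) (u : Om m) (n : ℕ),
    Tendsto (fun ε : ℝ => Dn ε u n) (𝓝[>] 0) (𝓝 ‖S u 0 n‖) ∧
    Tendsto (fun ε : ℝ => Hn ε u n) (𝓝[>] 0) (𝓝 (ht u 0 n))

/-- **[HLIM]** Limits of the probabilities. Uses `S_NULL`, `S_HM`, `S_HPT`.

Proof. Suppose (1) fails: there is a sequence `ε_k → 0+` with
`P (HSaw ε_k c n) > Z n + η`. By the reverse Fatou lemma `limsup P (HSaw ε_k) ≤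
P (limsup HSaw ε_k)`, and a `u` in infinitely many `HSaw ε_k` has `‖S u i j‖ ≥ c` for all
`i < j ≤ n` (`S_HPT` for `shift i u`; `S_shift`), so is in `Saw n` up to the null sets of `S_NULL`.
(2) the same with the closed condition `a ≤ ‖S u 0 n‖`. (3) Fatou: every `u ∈ Brd n` satisfies strict
inequalities (finitely many), so it is in `HBr ε_k c n` for all large `k`. (For a fixed `η` it is
enough to argue with sequences; or use dominated convergence for indicators along `𝓝[>] 0`, which is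
countably generated.) -/
def S_HLIM : Prop :=
  ∀ (m : ℕ) (c a η : ℝ) (n : ℕ), 1 ≤ m → 0 < c → c < 1 → 0 < η → ∃ ε0 : ℝ, 0 < ε0 ∧
    ∀ ε : ℝ, 0 < ε → ε < ε0 →
      (Pm m).real (HSaw m ε c n) ≤ Z m c n + η ∧
      (Pm m).real (HFar m ε c a n) ≤ (Pm m).real (Far m c a n) + η ∧
      B m c n - η ≤ (Pm m).real (HBr m ε c n)

/-- **[HUP]** Upper bound for far walks. Uses `S_BLOCK`, `S_HG`, `S_HM`.

Proof. `u ∈ HFar (δ n) n`, `n = k l + r`: all the blocks `i < k` of length `l` are in `HSaw l`, and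
`δ n ≤ Dn u n ≤ ∑_{i < k} Dn (shift (i l) u) l + r`, each term `≤ l` (`Dn ≤` number of steps by
`S_HG`). If fewer than `j` blocks have `Dn ≥ (δ / 2) l` then
`Dn u n < j l + (δ / 2) k l + l ≤ δ k l` (when `k ≥ 1`; note `j + 1 ≤ (δ / 2) k`), contradiction. So
there is a set of `j` blocks in `HFar ((δ / 2) l) l`, all others in `HSaw l`: union bound over the
`≤ 2 ^ k` sets and `S_BLOCK`. -/
def S_HUP : Prop :=
  ∀ (m : ℕ) (ε c δ : ℝ) (l k r j : ℕ), 0 < ε → 0 < c → 0 < δ → δ ≤ 1 → 1 ≤ l → r < l → 1 ≤ k →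
    (j : ℝ) + 1 ≤ δ / 2 * k → j ≤ k →
    (Pm m).real (HFar m ε c (δ * ((k * l + r : ℕ) : ℝ)) (k * l + r)) ≤
      2 ^ k * (Pm m).real (HFar m ε c (δ / 2 * l) l) ^ j * (Pm m).real (HSaw m ε c l) ^ (k - j)

/-- **[HLO]** Lower bound by bridges. Uses `S_BLOCK`, `S_HG`, `S_HM`.

Proof. As in the Euclidean case the concatenation of bridges is a bridge (`Hn` is additive,
`|Hn| ≤ Dn`), a bridge is in `HSaw`; `n = k l + r`: `k` bridges of length `l` and `r` bridges of length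
`1`. Also `HBr 0` is everything. -/
def S_HLO : Prop :=
  ∀ (m : ℕ) (ε c : ℝ) (l k r : ℕ), 0 < ε → 0 < c →
    (Pm m).real (HBr m ε c l) ^ k * (Pm m).real (HBr m ε c 1) ^ r ≤
      (Pm m).real (HSaw m ε c (k * l + r))

/-- **[HLO1]** One step: for `0 < ε < ε1` bridges of one step have probability at least
`p1 > 0`. Assembled from `S_HLIM` and `S_BRL` by helper948. -/
def S_HLO1 : Prop :=
  ∀ (m : ℕ) (c : ℝ), 1 ≤ m → 0 < c → c < 1 → ∃ ε1 p1 : ℝ, 0 < ε1 ∧ 0 < p1 ∧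
    ∀ ε : ℝ, 0 < ε → ε < ε1 → p1 ≤ (Pm m).real (HBr m ε c 1)

/-- **[POS]** The event `Av` has positive probability for every step length. Uses `S_BLOCK`,
`S_HG`, `S_HM`, `S_SIG`.

Proof. `inc ε x` for `x = e0` is `(0, e ^ ε)`: then `Hn ε u 1 = 1 > c`. `x ↦ Hn` of one step is
continuous, so for some `ρ > 0` all `x` in the cap `{1 - ρ < ⟪e0, x⟫}` have `Hn ε u 1 > c`; if all
steps `< n` are in the cap, `Hn ε (shift i u) (j - i) > c` for all `i < j ≤ n` (additivity), so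
`Dn > c` and `u ∈ Av ε c n` (`S_HG`). The probability is `≥ (sig cap) ^ n > 0`. -/
def S_POS : Prop :=
  ∀ (m : ℕ) (ε c : ℝ) (n : ℕ), 0 < ε → 0 < c → c < 1 → 0 < (Pm m).real (Av (m := m) ε c n)

end Pool.Agent.H948.HS
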